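import Mathlib

/-!
# [H19 QV GCD] averages of gcd's; powers of `ω`

`sum_gcd`: `∑_{1 ≤ r < H} gcd(r, q) ≤ H τ(q)`.  Proof: `gcd(r, q) ≤ ∑_{d ∣ q, d ∣ r} d` (the gcd is one of
these `d`), exchange the sums: `∑_{d ∣ q} d #{1 ≤ r < H : d ∣ r} ≤ ∑_{d ∣ q} d (H / d) ≤ H τ(q)`
(`Nat.card_multiples` or `Nat.Ioc_filter_dvd_card_eq_div`).

`gcd_mul_coprime`: `gcd(r m, q) = gcd(r, q)` for integers, `m` coprime to `q` (`Int.gcd_eq_natAbs`,
`Nat.Coprime.gcd_mul_right_cancel`).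

`pow_omega`: for `C ≥ 1` and `ε > 0` there is `B` with `C^ω(q) ≤ B q^ε` for all `q ≥ 1`.  Proof: let `P = ⌈C^(1/ε)⌉`;
primes `p ≥ P` satisfy `C ≤ p^ε`, there are at most `P` primes `p < P`; so `C^ω(q) = ∏_{p ∣ q} C ≤ C^P ∏_{p ∣ q, p ≥ P} p^ε
≤ C^P q^ε` (product of the distinct primes dividing `q` is at most `q`, `Nat.prod_primeFactors_dvd`).

`tau_le`: `τ(q) ≤ 2^ω(q)` for squarefree `q` (equality; `Nat.Coprime`, or
`ArithmeticFunction`/`Nat.card_divisors`: `τ(q) = ∏ (v_p + 1) = ∏ 2`).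
-/

namespace Pool.Agent.H19.QV

open Finset

theorem sum_gcd (q : ℕ) (hq : 1 ≤ q) (H : ℕ) :
    ∑ r ∈ Finset.Ico 1 H, (Nat.gcd r q : ℝ) ≤ H * q.divisors.card := by
  have h1 : ∀ r ∈ Finset.Ico 1 H, (Nat.gcd r q : ℝ) ≤ ∑ d ∈ q.divisors, if d ∣ r then (d : ℝ) else 0 := by
    intro r _
    have hd : Nat.gcd r q ∈ q.divisors := Nat.mem_divisors.2 ⟨Nat.gcd_dvd_right r q, by omega⟩
    have h2 := single_le_sum (f := fun d : ℕ => if d ∣ r then (d : ℝ) else 0)
      (fun d _ => by positivity) hd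
    simp only [Nat.gcd_dvd_left, if_true] at h2
    exact h2
  calc ∑ r ∈ Finset.Ico 1 H, (Nat.gcd r q : ℝ)
      ≤ ∑ r ∈ Finset.Ico 1 H, ∑ d ∈ q.divisors, (if d ∣ r then (d : ℝ) else 0) := sum_le_sum h1
    _ = ∑ d ∈ q.divisors, ∑ r ∈ Finset.Ico 1 H, (if d ∣ r then (d : ℝ) else 0) := sum_comm
    _ ≤ ∑ d ∈ q.divisors, (H : ℝ) := by
        refine sum_le_sum (fun d hd => ?_)
        rw [← sum_filter, sum_const, nsmul_eq_mul]
        have h3 : ((Finset.Ico 1 H).filter (fun r => d ∣ r)).card ≤ H / d := by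
          rw [← Nat.Ioc_filter_dvd_card_eq_div H d]
          refine card_le_card (filter_subset_filter _ (fun r hr => ?_))
          rw [mem_Ico] at hr
          rw [mem_Ioc]
          omega
        have h4 : ((Finset.Ico 1 H).filter (fun r => d ∣ r)).card * d ≤ H :=
          (Nat.mul_le_mul_right d h3).trans (Nat.div_mul_le_self H d)
        exact_mod_cast h4
    _ = H * q.divisors.card := by rw [sum_const, nsmul_eq_mul, mul_comm]

theorem gcd_mul_coprime (r m : ℤ) (q : ℕ) (h : IsCoprime m (q : ℤ)) :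
    Int.gcd (r * m) q = Int.gcd r q := by
  rw [Int.gcd_eq_natAbs_gcd_natAbs, Int.gcd_eq_natAbs_gcd_natAbs, Int.natAbs_mul]
  refine Nat.Coprime.gcd_mul_right_cancel _ ?_
  rw [Int.isCoprime_iff_gcd_eq_one] at h
  exact h

theorem pow_omega (C ε : ℝ) (hC : 1 ≤ C) (hε : 0 < ε) :
    ∃ B : ℝ, 1 ≤ B ∧ ∀ q : ℕ, 1 ≤ q → C ^ q.primeFactors.card ≤ B * (q : ℝ) ^ ε := by
  set P : ℕ := ⌈C ^ (1 / ε)⌉₊ with hP
  have hC0 : 0 < C := by linarith
  refine ⟨C ^ P, one_le_pow₀ hC, ?_⟩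
  intro q hq
  have h1 : ∀ p : ℕ, P ≤ p → C ≤ (p : ℝ) ^ ε := by
    intro p hp
    have h2 : C ^ (1 / ε) ≤ (p : ℝ) := (Nat.le_ceil _).trans (by exact_mod_cast hp)
    calc C = (C ^ (1 / ε)) ^ ε := by
          rw [← Real.rpow_mul hC0.le, one_div, inv_mul_cancel₀ hε.ne', Real.rpow_one]
      _ ≤ (p : ℝ) ^ ε := Real.rpow_le_rpow (by positivity) h2 hε.le
  rw [← prod_const]
  rw [← prod_filter_mul_prod_filter_not q.primeFactors (fun p => p < P)]
  refine mul_le_mul ?_ ?_ (prod_nonneg (fun _ _ => hC0.le)) (by positivity)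
  · rw [prod_const]
    refine pow_le_pow_right₀ hC ?_
    calc (q.primeFactors.filter (fun p => p < P)).card ≤ (range P).card :=
          card_le_card (fun p hp => mem_range.2 (mem_filter.1 hp).2)
      _ = P := card_range P
  · calc ∏ p ∈ q.primeFactors.filter (fun p => ¬ p < P), C
        ≤ ∏ p ∈ q.primeFactors.filter (fun p => ¬ p < P), ((p : ℝ) ^ ε) := by
          refine prod_le_prod (fun _ _ => hC0.le) (fun p hp => ?_)
          exact h1 p (not_lt.1 (mem_filter.1 hp).2)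
      _ ≤ ∏ p ∈ q.primeFactors, ((p : ℝ) ^ ε) := by
          refine prod_le_prod_of_subset_of_one_le (filter_subset _ _) (fun p hp => by positivity) ?_
          intro p hp _
          exact Real.one_le_rpow (by exact_mod_cast (Nat.prime_of_mem_primeFactors hp).one_le) hε.le
      _ = (((∏ p ∈ q.primeFactors, p : ℕ) : ℝ)) ^ ε := by
          rw [Nat.cast_prod]
          exact Real.finsetProd_rpow _ _ (fun p _ => by positivity) _
      _ ≤ (q : ℝ) ^ ε := by
          refine Real.rpow_le_rpow (by positivity) ?_ hε.le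
          exact_mod_cast Nat.le_of_dvd (by omega) (Nat.prod_primeFactors_dvd q)

theorem tau_le (q : ℕ) (hq : Squarefree q) : (q.divisors.card : ℝ) ≤ 2 ^ q.primeFactors.card := by
  rw [Nat.card_divisors hq.ne_zero]
  have h1 : ∏ x ∈ q.primeFactors, (q.factorization x + 1) ≤ ∏ x ∈ q.primeFactors, 2 := by
    refine prod_le_prod' (fun x _ => ?_)
    have := hq.natFactorization_le_one x
    omega
  rw [prod_const] at h1
  exact_mod_cast h1

end Pool.Agent.H19.QV
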