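import Pool.Agent.H19.QV.CRT
import Pool.Agent.H19.QV.GCD

/-!
# [H19 QV CLS] THEOREM Q': residue classes and a small factor of the modulus

`K_scale`: for `w` coprime to `q` with inverse `wb` (`w wb ≡ 1 (mod q)`): `K q l (w z) = K q (l wb) z`.
Proof: `w z` is coprime to `q` iff `z` is; if `z zb ≡ 1` then `(w z)(wb zb) ≡ 1`; `K_eq`.

`class_bound`: let `s, q ≥ 1` be coprime, `W ≥ 1` coprime to `q`, `s ∣ W`.  If `B ≥ 0` bounds
`|∑_{u' ≤ y < v'} K q l' y|` for all intervals with `v' - u' ≤ (v - u)/W + 1` and all `l'` with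
`gcd(l', q) = gcd(l, q)`, then `|∑_{u ≤ a < v, a ≡ r (mod W)} K (s q) l (a - a0)| ≤ B`.

Proof.  Let `u < v` (otherwise the sum is empty).  Write `a = r + W t`.  `K (s q) l (a - a0) = K s l1 (a - a0) * K q l2 (a - a0)`
(`K_mul`, `l2 = l sb`, `sb` inverse of `s` mod `q`).  `K s l1 (r + W t - a0) = K s l1 (r - a0)` (`s ∣ W`, `K_congr`), a constant of
absolute value `≤ 1`.  Let `Wb` be the inverse of `W` mod `q` and `z0 = Wb (r - a0)`; `r + W t - a0 ≡ W (t + z0) (mod q)`, so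
`K q l2 (a - a0) = K q (l2 Wb) (t + z0)` (`K_congr`, `K_scale`).  The `t` with `u ≤ r + W t < v` form the interval
`[u1, v1)`, `u1 = ⌈(u - r)/W⌉`, `v1 = ⌈(v - r)/W⌉`, `v1 - u1 ≤ (v - u)/W + 1`; shift by `z0`
(the sum over `y = t + z0 ∈ [u1 + z0, v1 + z0)`).  `gcd(l sb Wb, q) = gcd(l, q)` (`gcd_mul_coprime`).
-/

namespace Pool.Agent.H19.QV

open Finset

theorem K_scale (q : ℕ) (hq : 1 ≤ q) (l w wb z : ℤ) (hw : (q : ℤ) ∣ w * wb - 1) :
    K q l (w * z) = K q (l * wb) z := by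
  by_cases hc : IsCoprime z (q : ℤ)
  · obtain ⟨v, hv⟩ := exists_inv q z hc
    have h1 : (q : ℤ) ∣ w * z * (wb * v) - 1 := by
      have := dvd_add (hw.mul_right (z * v)) hv
      rwa [show (w * wb - 1) * (z * v) + (z * v - 1) = w * z * (wb * v) - 1 by ring] at this
    rw [K_eq q hq l (w * z) (wb * v) h1, K_eq q hq (l * wb) z v hv, mul_assoc]
  · rw [K_of_not q _ z hc, K_of_not q l (w * z)]
    intro h
    exact hc h.of_mul_left_right

private theorem ceil_ex (W : ℕ) (hW : 1 ≤ W) (x : ℤ) :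
    ∃ c : ℤ, ∀ t : ℤ, c ≤ t ↔ x ≤ W * t := by
  refine ⟨-((-x) / W), fun t => ?_⟩
  have hW' : (0 : ℤ) < W := by exact_mod_cast hW
  rw [neg_le, Int.le_ediv_iff_mul_le hW']
  constructor <;> intro h <;> nlinarith

theorem class_bound (s q W : ℕ) (hs : 1 ≤ s) (hq : 1 ≤ q) (hW : 1 ≤ W) (hsq : Nat.Coprime s q)
    (hWq : Nat.Coprime W q) (hsW : s ∣ W) (l a0 r u v : ℤ) (B : ℝ) (hB0 : 0 ≤ B)
    (hB : ∀ u' v' l' : ℤ, ((v' - u' : ℤ) : ℝ) ≤ ((v - u : ℤ) : ℝ) / W + 1 →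
      Int.gcd l' q = Int.gcd l q → ‖∑ y ∈ Finset.Ico u' v', K q l' y‖ ≤ B) :
    ‖∑ a ∈ (Finset.Ico u v).filter (fun a => (W : ℤ) ∣ a - r), K (s * q) l (a - a0)‖ ≤ B := by
  have hW' : (0 : ℤ) < W := by exact_mod_cast hW
  obtain ⟨sb, hsb⟩ := exists_inv q (s : ℤ) (Nat.isCoprime_iff_coprime.2 hsq)
  obtain ⟨qb, hqb⟩ := exists_inv s (q : ℤ) (Nat.isCoprime_iff_coprime.2 hsq.symm)
  obtain ⟨Wb, hWb⟩ := exists_inv q (W : ℤ) (Nat.isCoprime_iff_coprime.2 hWq)
  obtain ⟨u1, hu1⟩ := ceil_ex W hW (u - r)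
  obtain ⟨v1, hv1⟩ := ceil_ex W hW (v - r)
  obtain ⟨z0, hz0⟩ : ∃ z0 : ℤ, z0 = Wb * (r - a0) := ⟨_, rfl⟩
  have c1 : IsCoprime sb (q : ℤ) := by
    obtain ⟨k, hk⟩ := hsb
    exact ⟨s, -k, by linear_combination hk⟩
  have c2 : IsCoprime Wb (q : ℤ) := by
    obtain ⟨k, hk⟩ := hWb
    exact ⟨W, -k, by linear_combination hk⟩
  have key : ∀ y : ℤ, K (s * q) l (r + W * (y - z0) - a0) =
      K s (l * qb) (r - a0) * K q (l * sb * Wb) y := by
    intro y
    rw [K_mul s q hs hq qb sb hqb hsb]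
    congr 1
    · refine K_congr s hs _ _ _ ?_
      have : (s : ℤ) ∣ W := by exact_mod_cast hsW
      have h2 := this.mul_right (y - z0)
      rwa [show r + W * (y - z0) - a0 - (r - a0) = W * (y - z0) by ring]
    · rw [← K_scale q hq (l * sb) W Wb y hWb]
      refine K_congr q hq _ _ _ ?_
      have h2 := (dvd_neg.2 hWb).mul_right (r - a0)
      rw [hz0]
      rwa [show r + W * (y - Wb * (r - a0)) - a0 - W * y = -(W * Wb - 1) * (r - a0) by ring]
  have hsum : ∑ a ∈ (Finset.Ico u v).filter (fun a => (W : ℤ) ∣ a - r), K (s * q) l (a - a0) =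
      ∑ y ∈ Finset.Ico (u1 + z0) (v1 + z0), K s (l * qb) (r - a0) * K q (l * sb * Wb) y := by
    symm
    refine Finset.sum_nbij' (fun y => r + W * (y - z0)) (fun a => (a - r) / W + z0) ?_ ?_ ?_ ?_ ?_
    · intro y hy
      rw [mem_Ico] at hy
      have g1 := (hu1 (y - z0)).1 (by linarith)
      have g2 : ¬ (v1 ≤ y - z0) := by linarith
      rw [hv1] at g2
      rw [mem_filter, mem_Ico]
      refine ⟨⟨by linarith, by linarith⟩, ?_⟩
      rw [show r + W * (y - z0) - r = W * (y - z0) by ring]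
      exact Dvd.intro _ rfl
    · intro a ha
      rw [mem_filter, mem_Ico] at ha
      obtain ⟨⟨h1, h2⟩, t, ht⟩ := ha
      have e1 : (a - r) / (W : ℤ) = t := by
        rw [ht]
        exact Int.mul_ediv_cancel_left t hW'.ne'
      rw [mem_Ico, e1]
      have g1 : u1 ≤ t := (hu1 t).2 (by linarith)
      have g2 : ¬ (v1 ≤ t) := by
        rw [hv1]
        linarith
      constructor <;> linarith
    · intro y _
      have e1 : (r + W * (y - z0) - r) / (W : ℤ) = y - z0 := by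
        rw [show r + W * (y - z0) - r = W * (y - z0) by ring]
        exact Int.mul_ediv_cancel_left _ hW'.ne'
      rw [e1]
      ring
    · intro a ha
      rw [mem_filter] at ha
      obtain ⟨_, t, ht⟩ := ha
      have e1 : (a - r) / (W : ℤ) = t := by
        rw [ht]
        exact Int.mul_ediv_cancel_left t hW'.ne'
      rw [e1]
      linear_combination -ht
    · intro y _
      exact (key y).symm
  rw [hsum, ← mul_sum, norm_mul]
  have hlen : (((v1 + z0) - (u1 + z0) : ℤ) : ℝ) ≤ ((v - u : ℤ) : ℝ) / W + 1 := by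
    have g1 := (hu1 u1).1 le_rfl
    have g2 : ¬ (v1 ≤ v1 - 1) := by linarith
    rw [hv1] at g2
    have g3 : (W : ℤ) * ((v1 + z0) - (u1 + z0)) ≤ (v - u) + W := by linarith
    have g4 : (W : ℝ) * (((v1 + z0) - (u1 + z0) : ℤ) : ℝ) ≤ ((v - u : ℤ) : ℝ) + W := by exact_mod_cast g3
    have hWR : (0 : ℝ) < W := by exact_mod_cast hW
    rw [div_add_one hWR.ne', le_div_iff₀ hWR]
    linarith
  have hgcd : Int.gcd (l * sb * Wb) q = Int.gcd l q := by
    rw [gcd_mul_coprime _ _ _ c2, gcd_mul_coprime _ _ _ c1]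
  have h1 := hB (u1 + z0) (v1 + z0) (l * sb * Wb) hlen hgcd
  have h2 := norm_K_le s (l * qb) (r - a0)
  calc ‖K s (l * qb) (r - a0)‖ * ‖∑ y ∈ Finset.Ico (u1 + z0) (v1 + z0), K q (l * sb * Wb) y‖
      ≤ 1 * B := mul_le_mul h2 h1 (norm_nonneg _) (by norm_num)
    _ = B := one_mul B

end Pool.Agent.H19.QV
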