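import Pool.Agent.H19.QV.Defs

/-!
# [H19 QV COM] completion of incomplete sums

If `F : ℤ → ℂ` is periodic modulo `q ≥ 1`, all Fourier coefficients satisfy
`|∑_{0 ≤ y < q} F(y) e(t y / q)| ≤ B`, and `v - u ≤ T`, `0 ≤ T`, then
`|∑_{u ≤ y < v} F(y)| ≤ B (T / q + 1 + log q)`.

Proof.  Let `Fhat t = ∑_{0 ≤ z < q} F(z) e(t z / q)`.  For every `y`, `q F(y) = ∑_{0 ≤ t < q} Fhat(t) e(-t y / q)`
(orthogonality: `∑_{0 ≤ t < q} e(t (z - y)/q) = q` if `q ∣ z - y`, else `0`: geometric sum; exactly one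
`z ∈ [0, q)` is congruent to `y`, `F(z) = F(y)`).  So
`∑_{u ≤ y < v} F(y) = q⁻¹ ∑_t Fhat(t) ∑_{u ≤ y < v} e(-t y/q)`.  The term `t = 0` is at most `(B/q) max(v - u, 0) ≤ B T/q`.
For `1 ≤ t ≤ q - 1` the geometric sum is at most `2/|1 - e(-t/q)| = 1/|sin(π t/q)| ≤ q/(2 min(t, q - t))`
(`sin x ≥ 2x/π` on `[0, π/2]`, `Real.mul_le_sin`).  So the remaining terms contribute at most
`B ∑_{1 ≤ t < q} 1/(2 min(t, q - t)) ≤ B ∑_{1 ≤ t ≤ q/2} 1/t ≤ B (1 + log q)` (each value of `min(t, q - t)`,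
between `1` and `q/2`, is taken at most twice; `harmonic_le_one_add_log`; for `q = 1` there is no such term).
-/

namespace Pool.Agent.H19.QV

open Finset

private theorem sum_Ico_int (f : ℤ → ℂ) (u : ℤ) (n : ℕ) :
    ∑ y ∈ Finset.Ico u (u + n), f y = ∑ j ∈ Finset.range n, f (u + j) := by
  symm
  refine Finset.sum_nbij (fun j : ℕ => u + (j : ℤ)) ?_ ?_ ?_ ?_
  · intro j hj
    rw [Finset.mem_range] at hj
    rw [Finset.mem_Ico]
    omega
  · intro a _ b _ hab
    simp only at hab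
    omega
  · intro y hy
    rw [Finset.mem_coe, Finset.mem_Ico] at hy
    refine ⟨(y - u).toNat, ?_, ?_⟩
    · rw [Finset.mem_coe, Finset.mem_range]
      omega
    · simp only
      omega
  · intro j _
    rfl

private theorem e_nsmul (n : ℕ) (t : ℝ) : e ((n : ℝ) * t) = e t ^ n := by
  induction n with
  | zero => simp [e_zero]
  | succ n ih =>
    rw [pow_succ, ← ih, ← e_add]
    congr 1
    push_cast
    ring

private theorem e_eq_one_iff (t : ℝ) (h : e t = 1) : ∃ n : ℤ, t = n := by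
  unfold e at h
  rw [Complex.exp_eq_one_iff] at h
  obtain ⟨n, hn⟩ := h
  refine ⟨n, ?_⟩
  have h2 : (2 * (Real.pi : ℂ) * Complex.I) * ((t : ℂ) - n) = 0 := by linear_combination hn
  have h3 : (2 * (Real.pi : ℂ) * Complex.I) ≠ 0 := Complex.two_pi_I_ne_zero
  have h4 : (t : ℂ) - n = 0 := (mul_eq_zero.mp h2).resolve_left h3
  have h5 : (t : ℂ) = ((n : ℝ) : ℂ) := by
    push_cast
    exact sub_eq_zero.mp h4
  exact_mod_cast h5

private theorem orth (q : ℕ) (hq : 1 ≤ q) (m : ℤ) :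
    ∑ t ∈ Finset.range q, e ((t : ℝ) * ((m : ℝ) / q)) = if (q : ℤ) ∣ m then (q : ℂ) else 0 := by
  have hq' : (q : ℝ) ≠ 0 := by positivity
  simp_rw [e_nsmul]
  split_ifs with h
  · obtain ⟨n, rfl⟩ := h
    have : e ((((q : ℤ) * n : ℤ) : ℝ) / q) = 1 := by
      rw [show (((q : ℤ) * n : ℤ) : ℝ) / q = (n : ℝ) by push_cast; field_simp]
      exact e_int n
    rw [this]
    simp
  · have hne : e ((m : ℝ) / q) ≠ 1 := by
      intro h1
      obtain ⟨n, hn⟩ := e_eq_one_iff _ h1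
      apply h
      refine ⟨n, ?_⟩
      rw [div_eq_iff hq'] at hn
      have : (m : ℝ) = ((q * n : ℤ) : ℝ) := by push_cast; linarith
      exact_mod_cast this
    rw [geom_sum_eq hne, ← e_nsmul, show (q : ℝ) * ((m : ℝ) / q) = (m : ℝ) by field_simp, e_int,
      sub_self, zero_div]

private theorem norm_e_sub_one (t : ℝ) : ‖e t - 1‖ = 2 * |Real.sin (Real.pi * t)| := by
  have h := Complex.norm_exp_I_mul_ofReal_sub_one (2 * Real.pi * t)
  unfold e
  rw [show (2 * (Real.pi : ℂ) * (t : ℂ) * Complex.I) = Complex.I * ((2 * Real.pi * t : ℝ) : ℂ) by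
    push_cast; ring, h, Real.norm_eq_abs, abs_mul, abs_of_pos (by norm_num : (0 : ℝ) < 2)]
  congr 3
  ring

private theorem sin_lower (q t : ℕ) (ht1 : 1 ≤ t) (htq : t < q) :
    1 / (2 * |Real.sin (Real.pi * (-(t : ℝ) / q))|) ≤
      (q : ℝ) / 4 * (1 / t + 1 / ((q - t : ℕ) : ℝ)) := by
  have hq : (0 : ℝ) < q := by exact_mod_cast (by omega : 0 < q)
  have ht : (0 : ℝ) < t := by exact_mod_cast ht1
  have hqt : (0 : ℝ) < ((q - t : ℕ) : ℝ) := by exact_mod_cast (by omega : 0 < q - t)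
  have hqt' : ((q - t : ℕ) : ℝ) = q - t := by rw [Nat.cast_sub htq.le]
  have hpi := Real.pi_pos
  have hsin : Real.sin (Real.pi * (-(t : ℝ) / q)) = - Real.sin (Real.pi * (t / q)) := by
    rw [← Real.sin_neg]
    congr 1
    ring
  rw [hsin, abs_neg]
  rcases le_or_gt (2 * t) q with h | h
  · -- t ≤ q/2
    have h2 : (2 : ℝ) * t ≤ q := by exact_mod_cast h
    have h3 : Real.pi * (t / q) ≤ Real.pi / 2 := by
      have : (t : ℝ) / q ≤ 1 / 2 := by
        rw [div_le_div_iff₀ hq (by norm_num)]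
        linarith
      nlinarith
    have h4 := Real.mul_le_sin (by positivity) h3
    have h5 : 2 * (t : ℝ) / q ≤ Real.sin (Real.pi * (t / q)) := by
      refine le_trans (le_of_eq ?_) h4
      field_simp
    have h6 : (0 : ℝ) < 2 * t / q := by positivity
    rw [abs_of_pos (lt_of_lt_of_le h6 h5)]
    have h7 : 1 / (2 * Real.sin (Real.pi * (t / q))) ≤ 1 / (2 * (2 * t / q)) :=
      one_div_le_one_div_of_le (by positivity) (by linarith)
    refine h7.trans ?_
    have h8 : 1 / (2 * (2 * (t : ℝ) / q)) = q / 4 * (1 / t) := by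
      field_simp
      norm_num
    rw [h8]
    apply mul_le_mul_of_nonneg_left _ (by positivity)
    have : (0 : ℝ) ≤ 1 / ((q - t : ℕ) : ℝ) := by positivity
    linarith
  · have h2 : (q : ℝ) < 2 * t := by exact_mod_cast h
    have hsin2 : Real.sin (Real.pi * (t / q)) = Real.sin (Real.pi * (((q - t : ℕ) : ℝ) / q)) := by
      rw [← Real.sin_pi_sub]
      congr 1
      rw [hqt']
      field_simp
    rw [hsin2]
    have h3 : Real.pi * (((q - t : ℕ) : ℝ) / q) ≤ Real.pi / 2 := by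
      have : ((q - t : ℕ) : ℝ) / q ≤ 1 / 2 := by
        rw [div_le_div_iff₀ hq (by norm_num), hqt']
        linarith
      nlinarith
    have h4 := Real.mul_le_sin (by positivity) h3
    have h5 : 2 * ((q - t : ℕ) : ℝ) / q ≤ Real.sin (Real.pi * (((q - t : ℕ) : ℝ) / q)) := by
      refine le_trans (le_of_eq ?_) h4
      field_simp
    have h6 : (0 : ℝ) < 2 * ((q - t : ℕ) : ℝ) / q := by positivity
    rw [abs_of_pos (lt_of_lt_of_le h6 h5)]
    have h7 : 1 / (2 * Real.sin (Real.pi * (((q - t : ℕ) : ℝ) / q))) ≤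
        1 / (2 * (2 * ((q - t : ℕ) : ℝ) / q)) :=
      one_div_le_one_div_of_le (by positivity) (by linarith)
    refine h7.trans ?_
    have h8 : 1 / (2 * (2 * ((q - t : ℕ) : ℝ) / q)) = q / 4 * (1 / ((q - t : ℕ) : ℝ)) := by
      field_simp
      norm_num
    rw [h8]
    apply mul_le_mul_of_nonneg_left _ (by positivity)
    have : (0 : ℝ) ≤ 1 / (t : ℝ) := by positivity
    linarith

private theorem geom_bound (q t : ℕ) (ht1 : 1 ≤ t) (htq : t < q) (u : ℤ) (n : ℕ) :
    ‖∑ y ∈ Finset.Ico u (u + n), e (-((t : ℝ) * y / q))‖ ≤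
      (q : ℝ) / 2 * (1 / t + 1 / ((q - t : ℕ) : ℝ)) := by
  have hq : (0 : ℝ) < q := by exact_mod_cast (by omega : 0 < q)
  rw [sum_Ico_int]
  set ω : ℂ := e (-(t : ℝ) / q) with hω
  have h1 : ∀ j ∈ Finset.range n, e (-((t : ℝ) * ((u + (j : ℤ) : ℤ) : ℝ) / q)) =
      e (-((t : ℝ) * u / q)) * ω ^ j := by
    intro j _
    rw [hω, ← e_nsmul, ← e_add]
    congr 1
    push_cast
    ring
  rw [Finset.sum_congr rfl h1, ← Finset.mul_sum, norm_mul, norm_e, one_mul]
  have hne : ω ≠ 1 := by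
    intro h2
    obtain ⟨m, hm⟩ := e_eq_one_iff _ h2
    rw [div_eq_iff hq.ne'] at hm
    have h3 : (-(t : ℤ)) = m * q := by exact_mod_cast hm
    have h4 : (q : ℤ) ∣ (t : ℤ) := ⟨-m, by linarith⟩
    have h5 := Int.le_of_dvd (by exact_mod_cast ht1) h4
    omega
  rw [geom_sum_eq hne, norm_div]
  have hpos : 0 < ‖ω - 1‖ := norm_pos_iff.mpr (sub_ne_zero.mpr hne)
  have hnum : ‖ω ^ n - 1‖ ≤ 2 := by
    refine (norm_sub_le _ _).trans ?_
    rw [norm_pow, hω, norm_e, one_pow, norm_one]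
    norm_num
  have h6 : ‖ω ^ n - 1‖ / ‖ω - 1‖ ≤ 2 * (1 / ‖ω - 1‖) := by
    rw [mul_one_div]
    exact div_le_div_of_nonneg_right hnum hpos.le
  refine h6.trans ?_
  rw [hω, norm_e_sub_one]
  have h7 := sin_lower q t ht1 htq
  calc 2 * (1 / (2 * |Real.sin (Real.pi * (-(t : ℝ) / q))|))
      ≤ 2 * ((q : ℝ) / 4 * (1 / t + 1 / ((q - t : ℕ) : ℝ))) := by linarith
    _ = _ := by ring

private theorem sum_recip (q : ℕ) (hq : 1 ≤ q) :
    ∑ t ∈ Finset.Ico 1 q, (1 / (t : ℝ) + 1 / ((q - t : ℕ) : ℝ)) ≤ 2 * (1 + Real.log q) := by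
  have h1 : ∑ t ∈ Finset.Ico 1 q, 1 / ((q - t : ℕ) : ℝ) = ∑ t ∈ Finset.Ico 1 q, 1 / (t : ℝ) := by
    refine Finset.sum_nbij' (fun t => q - t) (fun t => q - t) ?_ ?_ ?_ ?_ ?_
    · intro t ht; rw [Finset.mem_Ico] at ht ⊢; omega
    · intro t ht; rw [Finset.mem_Ico] at ht ⊢; omega
    · intro t ht; rw [Finset.mem_Ico] at ht; omega
    · intro t ht; rw [Finset.mem_Ico] at ht; omega
    · intro t _; rfl
  rw [Finset.sum_add_distrib, h1]
  have h2 : ∑ t ∈ Finset.Ico 1 q, 1 / (t : ℝ) ≤ 1 + Real.log q := by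
    have h3 : ∑ t ∈ Finset.Ico 1 q, 1 / (t : ℝ) = ((harmonic (q - 1) : ℚ) : ℝ) := by
      unfold harmonic
      rw [Finset.sum_Ico_eq_sum_range]
      push_cast
      refine Finset.sum_congr rfl fun i _ => ?_
      rw [one_div, add_comm]
    rw [h3]
    refine (harmonic_le_one_add_log (q - 1)).trans ?_
    rcases Nat.eq_zero_or_pos (q - 1) with h | h
    · rw [h]
      simp only [Nat.cast_zero, Real.log_zero, add_zero]
      have : 0 ≤ Real.log q := Real.log_nonneg (by exact_mod_cast hq)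
      linarith
    · have : Real.log ((q - 1 : ℕ) : ℝ) ≤ Real.log q := by
        apply Real.log_le_log (by exact_mod_cast h)
        exact_mod_cast Nat.sub_le _ _
      linarith
  linarith

theorem completion (q : ℕ) (hq : 1 ≤ q) (F : ℤ → ℂ) (hF : ∀ y, F (y + q) = F y) (B : ℝ)
    (hB : ∀ t : ℤ, ‖∑ y ∈ Finset.Ico (0 : ℤ) q, F y * e ((t : ℝ) * y / q)‖ ≤ B)
    (u v : ℤ) (T : ℝ) (hT : 0 ≤ T) (huv : ((v - u : ℤ) : ℝ) ≤ T) :
    ‖∑ y ∈ Finset.Ico u v, F y‖ ≤ B * (T / q + 1 + Real.log q) := by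
  classical
  have hqr : (0 : ℝ) < q := by exact_mod_cast hq
  have hB0 : 0 ≤ B := le_trans (norm_nonneg _) (hB 0)
  have hlog : 0 ≤ Real.log q := Real.log_nonneg (by exact_mod_cast hq)
  rcases le_or_gt v u with hle | hlt
  · rw [Finset.Ico_eq_empty (by omega), Finset.sum_empty, norm_zero]
    positivity
  -- periodicity
  have hFm : ∀ (n : ℤ) (y : ℤ), F (y + n * q) = F y := by
    intro n
    induction n using Int.induction_on with
    | zero => intro y; simp
    | succ n ih =>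
      intro y
      rw [show y + ((n : ℤ) + 1) * q = (y + n * q) + q by ring, hF, ih]
    | pred n ih =>
      intro y
      rw [show y + (-(n : ℤ) - 1) * q = (y + -(n : ℤ) * q) - q by ring]
      have h := hF ((y + -(n : ℤ) * q) - q)
      rw [sub_add_cancel] at h
      rw [← h, ih]
  set Fh : ℕ → ℂ := fun t => ∑ z ∈ Finset.Ico (0 : ℤ) q, F z * e ((t : ℝ) * z / q) with hFh
  have hFhB : ∀ t, ‖Fh t‖ ≤ B := fun t => by
    have := hB (t : ℤ)
    simpa [hFh] using this
  have hinv : ∀ y : ℤ, (q : ℂ) * F y = ∑ t ∈ Finset.range q, Fh t * e (-((t : ℝ) * y / q)) := by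
    intro y
    have h1 : ∀ t ∈ Finset.range q, Fh t * e (-((t : ℝ) * y / q)) =
        ∑ z ∈ Finset.Ico (0 : ℤ) q, F z * e ((t : ℝ) * (((z - y : ℤ) : ℝ) / q)) := by
      intro t _
      simp only [hFh]
      rw [Finset.sum_mul]
      refine Finset.sum_congr rfl fun z _ => ?_
      rw [mul_assoc, ← e_add]
      congr 2
      push_cast
      ring
    rw [Finset.sum_congr rfl h1, Finset.sum_comm]
    simp_rw [← Finset.mul_sum, orth q hq]
    rw [Finset.sum_eq_single (y % q)]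
    · rw [if_pos]
      · have h2 : F (y % q) = F y := by
          have h3 := hFm (y / q) (y % q)
          rw [show y % (q : ℤ) + y / q * q = y by
            rw [mul_comm]; exact Int.emod_add_mul_ediv y q] at h3
          exact h3.symm
        rw [h2]
        ring
      · rw [← Int.emod_emod_of_dvd y (dvd_refl (q : ℤ))]
        exact ⟨-(y / q), by rw [Int.emod_emod_of_dvd y (dvd_refl (q : ℤ))]; linarith [Int.emod_add_mul_ediv y q]⟩
    · intro z hz hzy
      rw [if_neg, mul_zero]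
      intro hd
      apply hzy
      rw [Finset.mem_Ico] at hz
      have h4 : z % q = y % q := Int.ModEq.symm ((Int.modEq_iff_dvd).mpr hd)
      rw [← h4, Int.emod_eq_of_lt hz.1 hz.2]
    · intro hn
      exfalso
      apply hn
      rw [Finset.mem_Ico]
      have hq0 : (0 : ℤ) < q := by exact_mod_cast hq
      exact ⟨Int.emod_nonneg y hq0.ne', Int.emod_lt_of_pos y hq0⟩
  obtain ⟨n, hn⟩ : ∃ n : ℕ, v = u + n := ⟨(v - u).toNat, by omega⟩
  have hnT : (n : ℝ) ≤ T := by
    rw [hn] at huv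
    push_cast at huv
    linarith
  have hsum : (q : ℂ) * ∑ y ∈ Finset.Ico u v, F y =
      ∑ t ∈ Finset.range q, Fh t * ∑ y ∈ Finset.Ico u v, e (-((t : ℝ) * y / q)) := by
    rw [Finset.mul_sum, Finset.sum_congr rfl fun y _ => hinv y, Finset.sum_comm]
    exact Finset.sum_congr rfl fun t _ => by rw [Finset.mul_sum]
  have hmain : (q : ℝ) * ‖∑ y ∈ Finset.Ico u v, F y‖ ≤ B * (T + q * (1 + Real.log q)) := by
    calc (q : ℝ) * ‖∑ y ∈ Finset.Ico u v, F y‖ = ‖(q : ℂ) * ∑ y ∈ Finset.Ico u v, F y‖ := by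
          rw [norm_mul, Complex.norm_natCast]
      _ = ‖∑ t ∈ Finset.range q, Fh t * ∑ y ∈ Finset.Ico u v, e (-((t : ℝ) * y / q))‖ := by rw [hsum]
      _ ≤ ∑ t ∈ Finset.range q, ‖Fh t * ∑ y ∈ Finset.Ico u v, e (-((t : ℝ) * y / q))‖ :=
          norm_sum_le _ _
      _ ≤ ∑ t ∈ Finset.range q, B * ‖∑ y ∈ Finset.Ico u v, e (-((t : ℝ) * y / q))‖ := by
          refine Finset.sum_le_sum fun t _ => ?_
          rw [norm_mul]
          exact mul_le_mul_of_nonneg_right (hFhB t) (norm_nonneg _)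
      _ = B * ∑ t ∈ Finset.range q, ‖∑ y ∈ Finset.Ico u v, e (-((t : ℝ) * y / q))‖ := by
          rw [Finset.mul_sum]
      _ ≤ B * (T + q * (1 + Real.log q)) := by
          apply mul_le_mul_of_nonneg_left _ hB0
          rw [Finset.range_eq_Ico, Finset.sum_eq_sum_Ico_succ_bot (by omega : 0 < q)]
          apply add_le_add
          · simp only [Nat.cast_zero, zero_mul, zero_div, neg_zero, e_zero]
            rw [Finset.sum_const, nsmul_eq_mul, mul_one, Complex.norm_natCast, hn, Int.card_Ico]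
            rw [show u + (n : ℤ) - u = n by ring, Int.toNat_natCast]
            exact hnT
          · have h5 : ∀ t ∈ Finset.Ico (0 + 1) q, ‖∑ y ∈ Finset.Ico u v, e (-((t : ℝ) * y / q))‖ ≤
                (q : ℝ) / 2 * (1 / t + 1 / ((q - t : ℕ) : ℝ)) := by
              intro t ht
              rw [Finset.mem_Ico] at ht
              rw [hn]
              exact geom_bound q t (by omega) ht.2 u n
            refine (Finset.sum_le_sum h5).trans ?_
            rw [← Finset.mul_sum]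
            have h6 := sum_recip q hq
            have h7 := mul_le_mul_of_nonneg_left h6 (by positivity : (0 : ℝ) ≤ q / 2)
            rw [show (0 + 1 : ℕ) = 1 from rfl]
            linarith
  have h8 : B * (T + q * (1 + Real.log q)) = (q : ℝ) * (B * (T / q + 1 + Real.log q)) := by
    field_simp
    ring
  rw [h8] at hmain
  exact le_of_mul_le_mul_left hmain hqr

end Pool.Agent.H19.QV
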