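import Pool.Agent.H19.QV.Defs

/-!
# [H19 QV CRT] twisted multiplicativity of `K`

Let `m, n ≥ 1`, `n * nb ≡ 1 (mod m)`, `m * mb ≡ 1 (mod n)` (so `m, n` are coprime).

`K_mul`: `K (m * n) l y = K m (l * nb) y * K n (l * mb) y`.
Proof.  `y` is coprime to `m * n` iff it is coprime to `m` and to `n` (`IsCoprime.mul_right_iff`); if not,
both sides are `0` (`K_of_not`).  If it is, let `v` be an inverse of `y` modulo `m * n` (`exists_inv`);
it is an inverse modulo `m` and modulo `n`.  By `K_eq` the claim is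
`e(l v / (m n)) = e(l nb v / m) e(l mb v / n) = e(l v (nb n + mb m) / (m n))`, and
`n nb + m mb - 1` is divisible by `m` and by `n`, hence by `m n` (coprime), so the exponents differ by
an integer (`e_congr`, `e_add`).

`e_mul`: `e(t y / (m n)) = e(t nb y / m) e(t mb y / n)` for integers `t, y`: the same computation.
-/

namespace Pool.Agent.H19.QV

open Finset

/-- the common congruence `n nb + m mb ≡ 1 (mod m n)` -/
theorem crt_one (m n : ℕ) (nb mb : ℤ) (h1 : (m : ℤ) ∣ n * nb - 1)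
    (h2 : (n : ℤ) ∣ m * mb - 1) : ((m : ℤ) * n) ∣ n * nb + m * mb - 1 := by
  have hc : IsCoprime (m : ℤ) (n : ℤ) := by
    obtain ⟨k, hk⟩ := h2
    exact ⟨mb, -k, by linear_combination hk⟩
  refine hc.mul_dvd ?_ ?_
  · have := dvd_add h1 (Dvd.intro mb (rfl : (m : ℤ) * mb = m * mb))
    rwa [show (n : ℤ) * nb - 1 + m * mb = n * nb + m * mb - 1 by ring] at this
  · have := dvd_add h2 (Dvd.intro nb (rfl : (n : ℤ) * nb = n * nb))
    rwa [show (m : ℤ) * mb - 1 + n * nb = n * nb + m * mb - 1 by ring] at this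

theorem e_mul (m n : ℕ) (hm : 1 ≤ m) (hn : 1 ≤ n) (nb mb : ℤ) (h1 : (m : ℤ) ∣ n * nb - 1)
    (h2 : (n : ℤ) ∣ m * mb - 1) (x : ℤ) :
    e ((x : ℝ) / ((m * n : ℕ) : ℝ)) = e (((x * nb : ℤ) : ℝ) / m) * e (((x * mb : ℤ) : ℝ) / n) := by
  obtain ⟨k, hk⟩ := crt_one m n nb mb h1 h2
  rw [← e_add]
  refine e_congr _ _ (-(x * k)) ?_
  have hm' : (m : ℝ) ≠ 0 := by positivity
  have hn' : (n : ℝ) ≠ 0 := by positivity
  have hk' : (n : ℝ) * nb + m * mb - 1 = m * n * k := by exact_mod_cast hk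
  push_cast
  field_simp
  linear_combination (-(x : ℝ)) * hk'

theorem K_mul (m n : ℕ) (hm : 1 ≤ m) (hn : 1 ≤ n) (nb mb : ℤ) (h1 : (m : ℤ) ∣ n * nb - 1)
    (h2 : (n : ℤ) ∣ m * mb - 1) (l y : ℤ) :
    K (m * n) l y = K m (l * nb) y * K n (l * mb) y := by
  by_cases hc : IsCoprime y ((m * n : ℕ) : ℤ)
  · obtain ⟨v, hv⟩ := exists_inv (m * n) y hc
    have hvm : (m : ℤ) ∣ y * v - 1 := dvd_trans (by push_cast; exact Dvd.intro _ rfl) hv
    have hvn : (n : ℤ) ∣ y * v - 1 := dvd_trans (by push_cast; exact Dvd.intro_left _ rfl) hv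
    rw [K_eq (m * n) (Nat.mul_pos hm hn) l y v hv, K_eq m hm _ y v hvm, K_eq n hn _ y v hvn,
      e_mul m n hm hn nb mb h1 h2]
    congr 3 <;> ring_nf
  · have h3 : ¬ (IsCoprime y (m : ℤ) ∧ IsCoprime y (n : ℤ)) := by
      rintro ⟨ha, hb⟩
      apply hc
      push_cast
      exact ha.mul_right hb
    rw [K_of_not _ l y hc]
    by_cases ha : IsCoprime y (m : ℤ)
    · have hb : ¬ IsCoprime y (n : ℤ) := fun hb => h3 ⟨ha, hb⟩
      rw [K_of_not n _ y hb, mul_zero]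
    · rw [K_of_not m _ y ha, zero_mul]

end Pool.Agent.H19.QV
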