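import Mathlib

/-!
# [H19 QV] incomplete Kloosterman sums: definitions and basic lemmas

`K q l y = e(l ȳ / q)` where `ȳ` is the inverse of `y` modulo `q`, and `0` if `gcd(y, q) ≠ 1`.
-/

namespace Pool.Agent.H19.QV

open Finset

/-- `e t = exp(2 π i t)` -/
noncomputable def e (t : ℝ) : ℂ := Complex.exp (2 * Real.pi * t * Complex.I)

open Classical in
/-- `K q l y = e(l ȳ / q)`, `ȳ` the inverse of `y` modulo `q`; `0` if `gcd(y, q) ≠ 1` -/
noncomputable def K (q : ℕ) (l y : ℤ) : ℂ :=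
  if IsCoprime y (q : ℤ) then e ((l : ℝ) * (((y : ZMod q)⁻¹).val : ℝ) / (q : ℝ)) else 0

/-- the summand of the complete sum after two differencing steps -/
noncomputable def K4 (q : ℕ) (l s1 s2 y : ℤ) : ℂ :=
  K q l (y + s1 + s2) * (starRingEnd ℂ) (K q l (y + s2)) * (starRingEnd ℂ) (K q l (y + s1)) * K q l y

/-- the complete sum with four poles and a linear term -/
noncomputable def G (q : ℕ) (l s1 s2 t : ℤ) : ℂ :=
  ∑ y ∈ Finset.Ico (0 : ℤ) q, K4 q l s1 s2 y * e ((t : ℝ) * y / q)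

/-- The complete sum of `ψ (∑_{a ∈ S} c_a / (y - a) + t y)` over `y ∉ S`, `ψ` the standard additive
character of `ZMod p` -/
noncomputable def ws (p : ℕ) [Fact p.Prime] (S : Finset (ZMod p)) (c : ZMod p → ZMod p)
    (t : ZMod p) : ℂ :=
  ∑ y ∈ Finset.univ \ S, ZMod.stdAddChar (∑ a ∈ S, c a * (y - a)⁻¹ + t * y)

/-- WEIL'S BOUND (with any exponent `κ`) for rational functions with at most four simple poles:
`|∑_{y ∉ S} ψ(∑_{a ∈ S} c_a / (y - a) + t y)| ≤ C p^κ` for `1 ≤ |S| ≤ 4`, `c_a ≠ 0` on `S`. -/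
def Weil (C κ : ℝ) : Prop :=
  ∀ (p : ℕ) [Fact p.Prime] (S : Finset (ZMod p)) (c : ZMod p → ZMod p) (t : ZMod p),
    S.Nonempty → S.card ≤ 4 → (∀ a ∈ S, c a ≠ 0) → ‖ws p S c t‖ ≤ C * (p : ℝ) ^ κ

theorem e_zero : e 0 = 1 := by simp [e]

theorem e_add (s t : ℝ) : e (s + t) = e s * e t := by
  unfold e
  rw [← Complex.exp_add]
  congr 1
  push_cast
  ring

theorem norm_e (t : ℝ) : ‖e t‖ = 1 := by
  unfold e
  rw [show (2 * (Real.pi : ℂ) * (t : ℂ) * Complex.I) = ((2 * Real.pi * t : ℝ) : ℂ) * Complex.I by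
    push_cast; ring]
  exact Complex.norm_exp_ofReal_mul_I _

theorem e_int (n : ℤ) : e (n : ℝ) = 1 := by
  unfold e
  rw [show (2 * (Real.pi : ℂ) * ((n : ℝ) : ℂ) * Complex.I) = (n : ℂ) * (2 * Real.pi * Complex.I) by
    push_cast; ring]
  exact Complex.exp_int_mul_two_pi_mul_I n

theorem conj_e (t : ℝ) : (starRingEnd ℂ) (e t) = e (-t) := by
  unfold e
  rw [← Complex.exp_conj]
  congr 1
  simp only [map_mul, Complex.conj_I, Complex.conj_ofReal, map_ofNat]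
  push_cast
  ring

/-- `e` only depends on the fraction modulo `1` -/
theorem e_congr (s t : ℝ) (n : ℤ) (h : s = t + n) : e s = e t := by
  rw [h, e_add, e_int, mul_one]

/-- `e(x/q)` depends on `x` modulo `q` only -/
theorem e_div_congr (q : ℕ) (hq : 1 ≤ q) (x y : ℤ) (h : (q : ℤ) ∣ x - y) :
    e ((x : ℝ) / q) = e ((y : ℝ) / q) := by
  obtain ⟨n, hn⟩ := h
  refine e_congr _ _ n ?_
  have hq' : (q : ℝ) ≠ 0 := by positivity
  have h1 : (x : ℝ) - y = q * n := by exact_mod_cast hn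
  field_simp
  linarith

theorem e_eq_std (q : ℕ) [NeZero q] (x : ℤ) : e ((x : ℝ) / q) = ZMod.stdAddChar (x : ZMod q) := by
  rw [ZMod.stdAddChar_coe]
  unfold e
  congr 1
  push_cast
  ring

/-- the value of `K` from any inverse -/
theorem K_eq (q : ℕ) (hq : 1 ≤ q) (l y v : ℤ) (h : (q : ℤ) ∣ y * v - 1) :
    K q l y = e (((l * v : ℤ) : ℝ) / q) := by
  have : NeZero q := ⟨by omega⟩
  have hc : IsCoprime y (q : ℤ) := by
    obtain ⟨n, hn⟩ := h
    exact ⟨v, -n, by linarith⟩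
  unfold K
  rw [if_pos hc]
  have h1 : ((y : ZMod q) * (v : ZMod q)) = 1 := by
    have : ((y * v - 1 : ℤ) : ZMod q) = 0 := (ZMod.intCast_zmod_eq_zero_iff_dvd _ _).mpr h
    push_cast at this
    exact sub_eq_zero.mp this
  have h2 : (y : ZMod q)⁻¹ = (v : ZMod q) := by
    have hu : IsUnit (y : ZMod q) := IsUnit.of_mul_eq_one _ h1
    calc (y : ZMod q)⁻¹ = (y : ZMod q)⁻¹ * ((y : ZMod q) * v) := by rw [h1, mul_one]
      _ = (y : ZMod q)⁻¹ * (y : ZMod q) * v := by ring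
      _ = v := by rw [ZMod.inv_mul_of_unit _ hu, one_mul]
  have h3 : ((l : ℝ) * (((y : ZMod q)⁻¹).val : ℝ)) = ((l * (((y : ZMod q)⁻¹).val : ℤ) : ℤ) : ℝ) := by
    push_cast
    rfl
  rw [h3]
  apply e_div_congr q hq
  rw [← ZMod.intCast_eq_intCast_iff_dvd_sub]
  push_cast
  rw [ZMod.natCast_zmod_val, h2]

theorem K_of_not (q : ℕ) (l y : ℤ) (h : ¬ IsCoprime y (q : ℤ)) : K q l y = 0 := by
  unfold K
  rw [if_neg h]

theorem norm_K_le (q : ℕ) (l y : ℤ) : ‖K q l y‖ ≤ 1 := by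
  unfold K
  split_ifs
  · rw [norm_e]
  · simp

theorem isCoprime_congr (q : ℕ) (y y' : ℤ) (h : (q : ℤ) ∣ y - y') (hc : IsCoprime y (q : ℤ)) :
    IsCoprime y' (q : ℤ) := by
  obtain ⟨a, b, hab⟩ := hc
  obtain ⟨n, hn⟩ := h
  exact ⟨a, b + a * n, by linear_combination hab - a * hn⟩

/-- inverse of a coprime residue -/
theorem exists_inv (q : ℕ) (y : ℤ) (h : IsCoprime y (q : ℤ)) : ∃ v : ℤ, (q : ℤ) ∣ y * v - 1 := by
  obtain ⟨a, b, hab⟩ := h
  exact ⟨a, -b, by linear_combination hab⟩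

theorem K_congr (q : ℕ) (hq : 1 ≤ q) (l y y' : ℤ) (h : (q : ℤ) ∣ y - y') : K q l y = K q l y' := by
  by_cases hc : IsCoprime y (q : ℤ)
  · obtain ⟨v, hv⟩ := exists_inv q y hc
    have hv' : (q : ℤ) ∣ y' * v - 1 := by
      have := dvd_sub hv (h.mul_right v)
      rwa [show y * v - 1 - (y - y') * v = y' * v - 1 by ring] at this
    rw [K_eq q hq l y v hv, K_eq q hq l y' v hv']
  · have hc' : ¬ IsCoprime y' (q : ℤ) := fun h' => hc (isCoprime_congr q y' y (by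
      rw [← neg_sub]; exact (dvd_neg.mpr h)) h')
    rw [K_of_not q l y hc, K_of_not q l y' hc']

theorem K_congr_l (q : ℕ) (hq : 1 ≤ q) (l l' y : ℤ) (h : (q : ℤ) ∣ l - l') : K q l y = K q l' y := by
  by_cases hc : IsCoprime y (q : ℤ)
  · obtain ⟨v, hv⟩ := exists_inv q y hc
    rw [K_eq q hq l y v hv, K_eq q hq l' y v hv]
    apply e_div_congr q hq
    rw [← sub_mul]
    exact h.mul_right v
  · rw [K_of_not q l y hc, K_of_not q l' y hc]

theorem K_period (q : ℕ) (hq : 1 ≤ q) (l y : ℤ) : K q l (y + q) = K q l y :=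
  K_congr q hq l _ _ (by simp)

end Pool.Agent.H19.QV
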