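import Pool.Agent.H19.QV.QTH
import Pool.Agent.H19.QV.CLS
import Pool.Agent.H23.LP.Def

/-!
# [H19 QV FIN] the result of chapter Q in the notation of `H23.LP`

From `theoremQ` and `Weil C κ`, `κ ≤ 0.54`: the interface theorem `qv`.
-/

namespace Pool.Agent.H19.QV

open Finset

private theorem ee_eq (x : ℝ) : H23.LP.ee x = e x := rfl

theorem fe_eq_K (q : ℕ) (hq : 1 ≤ q) (l x : ℤ) : H23.LP.fe q l x = K q l x := by
  unfold H23.LP.fe
  split_ifs with h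
  · rw [K_eq q hq l x (Int.gcdA x q), ee_eq]
    have h1 := Int.gcd_eq_gcd_ab x q
    rw [h] at h1
    exact ⟨-Int.gcdB x q, by push_cast at h1; linarith⟩
  · rw [K_of_not]
    intro hc
    exact h (Int.isCoprime_iff_gcd_eq_one.mp hc)

/-- sums over a progression `u + v t`, reduced to consecutive integers -/
private theorem progression (g Q : ℕ) (hg : 1 ≤ g) (hQ : 1 ≤ Q) (hgQ : Nat.Coprime g Q) (l u v s f : ℤ)
    (hgv : (g : ℤ) ∣ v) (hvQ : IsCoprime v (Q : ℤ)) :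
    ∃ l' z : ℤ, (∀ d : ℕ, d ∣ Q → Int.gcd l' d = Int.gcd l d) ∧
      ‖∑ t ∈ Finset.Ioc s f, K (g * Q) l (u + v * t)‖ ≤ ‖∑ y ∈ Finset.Ico (s + 1 + z) (f + 1 + z), K Q l' y‖ := by
  have hc : IsCoprime (g : ℤ) (Q : ℤ) := Nat.isCoprime_iff_coprime.mpr hgQ
  obtain ⟨gb, hgb⟩ := exists_inv Q (g : ℤ) hc
  obtain ⟨Qb, hQb⟩ := exists_inv g (Q : ℤ) hc.symm
  obtain ⟨vb, hvb⟩ := exists_inv Q v hvQ
  refine ⟨l * gb * vb, vb * u, ?_, ?_⟩
  · intro d hd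
    have hcop : ∀ a b : ℤ, (Q : ℤ) ∣ a * b - 1 → IsCoprime b (d : ℤ) := by
      intro a b hab
      have : (d : ℤ) ∣ a * b - 1 := dvd_trans (by exact_mod_cast hd) hab
      obtain ⟨n, hn⟩ := this
      exact ⟨a, -n, by linear_combination hn⟩
    rw [gcd_mul_coprime _ _ _ (hcop v vb hvb), gcd_mul_coprime _ _ _ (hcop g gb hgb)]
  · have hterm : ∀ t : ℤ, K (g * Q) l (u + v * t) = K g (l * Qb) u * K Q (l * gb * vb) (t + vb * u) := by
      intro t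
      rw [K_mul g Q hg hQ Qb gb hQb hgb]
      congr 1
      · apply K_congr g hg
        rw [show u + v * t - u = v * t by ring]
        exact hgv.mul_right t
      · rw [← K_scale Q hQ (l * gb) v vb (t + vb * u) hvb]
        apply K_congr Q hQ
        rw [show u + v * t - v * (t + vb * u) = -((v * vb - 1) * u) by ring]
        exact (dvd_neg.mpr (hvb.mul_right u))
    rw [Finset.sum_congr rfl fun t _ => hterm t, ← Finset.mul_sum, norm_mul]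
    refine (mul_le_of_le_one_left (norm_nonneg _) (norm_K_le _ _ _)).trans (le_of_eq ?_)
    congr 1
    have h1 := Finset.sum_Ico_add' (fun y => K Q (l * gb * vb) y) (s + 1) (f + 1) (vb * u)
    rw [← h1]
    apply Finset.sum_congr _ (fun _ _ => rfl)
    ext t
    rw [Finset.mem_Ioc, Finset.mem_Ico]
    omega

theorem qv_of_weil (C κ : ℝ) (hW : Weil C κ) (hC : 2 ≤ C) (hκ : 0 ≤ κ) (hκ' : κ ≤ 0.54) :
    ∃ σ C' : ℝ, 0 < σ ∧ σ ≤ 1 / 10 ∧ 0 < C' ∧ ∀ (T : ℝ) (q0 q1 q2 : ℕ) (l u v s f : ℤ), 1 ≤ T →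
    0 < q0 → T ≤ q0 → Squarefree q0 → Nat.Coprime q0 6 → q1.Prime → q2.Prime → q1 ≠ q2 →
    Nat.Coprime q0 (q1 * q2) →
    T ^ (0.59 : ℝ) ≤ q1 → (q1 : ℝ) ≤ T ^ (0.72 : ℝ) → T ^ (0.59 : ℝ) ≤ q2 → (q2 : ℝ) ≤ T ^ (0.72 : ℝ) →
    (q0 : ℝ) ≤ T ^ (1.8 : ℝ) → ((Int.gcd (l * v) q0 : ℕ) : ℝ) ≤ T ^ (0.01 : ℝ) →
    ¬ (q1 : ℤ) ∣ v → ¬ (q2 : ℤ) ∣ v → ((f - s : ℤ) : ℝ) ≤ T →
    ‖∑ t ∈ Ioc s f, H23.LP.fe (q0 * q1 * q2) l (u + v * t)‖ ≤ C' * T ^ (1 - σ) := by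
  obtain ⟨B, hB1, hB⟩ := pow_omega (4 * C) 0.001 (by linarith) (by norm_num)
  have hBpos : 0 < B := by linarith
  set E : ℝ := 32 + 128 + 128 * 1002 * B with hE
  have hE1 : 1 ≤ E := by rw [hE]; nlinarith
  refine ⟨0.0005, E, by norm_num, by norm_num, by linarith, ?_⟩
  intro T q0 q1 q2 l u v s f hT hq0 hTq0 hsq hq06 hp1 hp2 hne hcop hl1 hu1 hl2 hu2 hq0T hgcd hv1 hv2 hlen
  have hT0 : 0 < T := by linarith
  -- the splitting q0 = g q
  set g : ℕ := Int.gcd v q0 with hg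
  have hgpos : 0 < g := Int.gcd_pos_of_ne_zero_right v (by exact_mod_cast hq0.ne')
  have hgdvd : g ∣ q0 := by
    have := Int.gcd_dvd_right v (q0 : ℤ)
    exact_mod_cast this
  obtain ⟨q, hq⟩ := hgdvd
  have hqpos : 0 < q := by
    rcases Nat.eq_zero_or_pos q with h | h
    · rw [h, mul_zero] at hq; omega
    · exact h
  have hgq : Nat.Coprime g q := by
    rw [hq] at hsq
    exact Nat.coprime_of_squarefree_mul hsq
  have hqsq : Squarefree q := by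
    rw [hq] at hsq
    exact hsq.of_mul_right
  have hqq0 : q ∣ q0 := ⟨g, by rw [hq, mul_comm]⟩
  have hgq0 : g ∣ q0 := ⟨q, hq⟩
  have hgv : (g : ℤ) ∣ v := Int.gcd_dvd_left v (q0 : ℤ)
  have hc1 : Nat.Coprime q0 q1 := Nat.Coprime.coprime_mul_right_right hcop
  have hc2 : Nat.Coprime q0 q2 := Nat.Coprime.coprime_mul_left_right hcop
  have hqc1 : Nat.Coprime q q1 := Nat.Coprime.coprime_dvd_left hqq0 hc1
  have hqc2 : Nat.Coprime q q2 := Nat.Coprime.coprime_dvd_left hqq0 hc2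
  have hgc1 : Nat.Coprime g q1 := Nat.Coprime.coprime_dvd_left hgq0 hc1
  have hgc2 : Nat.Coprime g q2 := Nat.Coprime.coprime_dvd_left hgq0 hc2
  have h12 : Nat.Coprime q1 q2 := (Nat.coprime_primes hp1 hp2).mpr hne
  have hvq : IsCoprime v (q : ℤ) := by
    rw [Int.isCoprime_iff_gcd_eq_one]
    by_contra hne1
    obtain ⟨p, hp, hpd⟩ := Nat.exists_prime_and_dvd hne1
    have hpq : p ∣ q := by
      have : ((Int.gcd v q : ℕ) : ℤ) ∣ (q : ℤ) := Int.gcd_dvd_right v (q : ℤ)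
      exact hpd.trans (by exact_mod_cast this)
    have hpv : (p : ℤ) ∣ v := dvd_trans (by exact_mod_cast hpd) (Int.gcd_dvd_left v (q : ℤ))
    have hpg : p ∣ g := by
      rw [hg]
      apply Int.dvd_gcd hpv
      exact_mod_cast hpq.trans hqq0
    have := Nat.dvd_gcd hpg hpq
    rw [hgq] at this
    exact hp.one_lt.ne' (Nat.dvd_one.mp this)
  have hvQ : IsCoprime v ((q1 * (q2 * q) : ℕ) : ℤ) := by
    push_cast
    refine IsCoprime.mul_right ?_ (IsCoprime.mul_right ?_ hvq)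
    · exact ((Nat.prime_iff_prime_int.mp hp1).coprime_iff_not_dvd.mpr hv1).symm
    · exact ((Nat.prime_iff_prime_int.mp hp2).coprime_iff_not_dvd.mpr hv2).symm
  have hQpos : 1 ≤ q1 * (q2 * q) := Nat.mul_pos hp1.pos (Nat.mul_pos hp2.pos hqpos)
  have hD : q0 * q1 * q2 = g * (q1 * (q2 * q)) := by rw [hq]; ring
  have hDpos : 1 ≤ q0 * q1 * q2 := Nat.mul_pos (Nat.mul_pos hq0 hp1.pos) hp2.pos
  obtain ⟨l', z, hl', hnorm⟩ := progression g (q1 * (q2 * q)) hgpos hQpos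
    (Nat.Coprime.mul_right hgc1 (Nat.Coprime.mul_right hgc2 hgq)) l u v s f hgv hvQ
  have hS : ‖∑ t ∈ Ioc s f, H23.LP.fe (q0 * q1 * q2) l (u + v * t)‖ ≤
      ‖∑ y ∈ Finset.Ico (s + 1 + z) (f + 1 + z), K (q1 * (q2 * q)) l' y‖ := by
    refine le_trans (le_of_eq ?_) hnorm
    congr 1
    refine Finset.sum_congr rfl fun t _ => ?_
    rw [fe_eq_K _ hDpos, hD]
  -- sizes
  have hgle : (g : ℝ) ≤ T ^ (0.01 : ℝ) := by
    refine le_trans ?_ hgcd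
    have h1 : g ∣ Int.gcd (l * v) q0 := Int.dvd_gcd (hgv.mul_left l) (by exact_mod_cast hgq0)
    have h2 : 0 < Int.gcd (l * v) q0 :=
      Int.gcd_pos_of_ne_zero_right _ (by exact_mod_cast hq0.ne')
    exact_mod_cast Nat.le_of_dvd h2 h1
  have hlgcd : ((Int.gcd l' q : ℕ) : ℝ) ≤ T ^ (0.01 : ℝ) := by
    refine le_trans ?_ hgcd
    rw [hl' q (by exact ⟨q1 * q2, by ring⟩)]
    have h1 : Int.gcd l q ∣ Int.gcd (l * v) q0 := by
      apply Int.dvd_gcd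
      · exact (Int.gcd_dvd_left l (q : ℤ)).mul_right v
      · exact dvd_trans (Int.gcd_dvd_right l (q : ℤ)) (by exact_mod_cast hqq0)
    have h2 : 0 < Int.gcd (l * v) q0 :=
      Int.gcd_pos_of_ne_zero_right _ (by exact_mod_cast hq0.ne')
    exact_mod_cast Nat.le_of_dvd h2 h1
  have hTle : ∀ x : ℝ, x ≤ 1 → T ^ x ≤ T := by
    intro x hx
    calc T ^ x ≤ T ^ (1 : ℝ) := Real.rpow_le_rpow_of_exponent_le hT hx
      _ = T := Real.rpow_one T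
  have hq1T : (q1 : ℝ) ≤ T := hu1.trans (hTle _ (by norm_num))
  have hq2T : (q2 : ℝ) ≤ T := hu2.trans (hTle _ (by norm_num))
  have hlen' : (((f + 1 + z) - (s + 1 + z) : ℤ) : ℝ) ≤ T := by
    rw [show (f + 1 + z) - (s + 1 + z) = f - s by ring]
    exact hlen
  have key := theoremQ C κ hW hC hκ q q1 q2 hqsq hp1.one_lt.le hp2.one_lt.le hqc1 hqc2 h12 T hq1T hq2T
    (s + 1 + z) (f + 1 + z) hlen' l'
  have hqr : (0 : ℝ) < q := by exact_mod_cast hqpos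
  have hq1r : (1 : ℝ) ≤ q := by exact_mod_cast hqpos
  have hqT : (q : ℝ) ≤ T ^ (1.8 : ℝ) := by
    refine le_trans ?_ hq0T
    exact_mod_cast Nat.le_of_dvd hq0 hqq0
  have hTq : T / q ≤ T ^ (0.01 : ℝ) := by
    refine le_trans ?_ hgle
    rw [div_le_iff₀ hqr]
    refine hTq0.trans (le_of_eq ?_)
    rw [hq]
    push_cast
    ring
  -- the three terms are at most constants times T^3.998
  have a1 : 32 * T ^ 2 * (q1 : ℝ) ^ 2 ≤ 32 * T ^ (3.998 : ℝ) := by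
    have h1 : (q1 : ℝ) ^ 2 ≤ (T ^ (0.72 : ℝ)) ^ 2 := pow_le_pow_left₀ (by positivity) hu1 2
    have h2 : T ^ 2 * (T ^ (0.72 : ℝ)) ^ 2 = T ^ (3.44 : ℝ) := by
      rw [← Real.rpow_natCast (T ^ (0.72 : ℝ)) 2, ← Real.rpow_mul hT0.le, ← Real.rpow_natCast T 2,
        ← Real.rpow_add hT0]
      norm_num
    have h3 : T ^ (3.44 : ℝ) ≤ T ^ (3.998 : ℝ) := Real.rpow_le_rpow_of_exponent_le hT (by norm_num)
    calc 32 * T ^ 2 * (q1 : ℝ) ^ 2 ≤ 32 * T ^ 2 * (T ^ (0.72 : ℝ)) ^ 2 :=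
          mul_le_mul_of_nonneg_left h1 (by positivity)
      _ = 32 * (T ^ 2 * (T ^ (0.72 : ℝ)) ^ 2) := by ring
      _ ≤ 32 * T ^ (3.998 : ℝ) := by rw [h2]; linarith
  have a2 : 128 * T ^ 3 * (q2 : ℝ) ≤ 128 * T ^ (3.998 : ℝ) := by
    have h2 : T ^ 3 * T ^ (0.72 : ℝ) = T ^ (3.72 : ℝ) := by
      rw [← Real.rpow_natCast T 3, ← Real.rpow_add hT0]
      norm_num
    have h3 : T ^ (3.72 : ℝ) ≤ T ^ (3.998 : ℝ) := Real.rpow_le_rpow_of_exponent_le hT (by norm_num)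
    calc 128 * T ^ 3 * (q2 : ℝ) ≤ 128 * T ^ 3 * T ^ (0.72 : ℝ) :=
          mul_le_mul_of_nonneg_left hu2 (by positivity)
      _ = 128 * (T ^ 3 * T ^ (0.72 : ℝ)) := by ring
      _ ≤ 128 * T ^ (3.998 : ℝ) := by rw [h2]; linarith
  have hT01 : 1 ≤ T ^ (0.01 : ℝ) := Real.one_le_rpow hT (by norm_num)
  have b1 : T / q + 1 + Real.log q ≤ 1002 * T ^ (0.0118 : ℝ) := by
    have h1 : Real.log q ≤ (q : ℝ) ^ (0.001 : ℝ) / 0.001 := Real.log_le_rpow_div hqr.le (by norm_num)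
    have h2 : (q : ℝ) ^ (0.001 : ℝ) ≤ T ^ (0.0018 : ℝ) := by
      calc (q : ℝ) ^ (0.001 : ℝ) ≤ (T ^ (1.8 : ℝ)) ^ (0.001 : ℝ) :=
            Real.rpow_le_rpow hqr.le hqT (by norm_num)
        _ = T ^ (0.0018 : ℝ) := by rw [← Real.rpow_mul hT0.le]; norm_num
    have h3 : T ^ (0.0018 : ℝ) ≤ T ^ (0.0118 : ℝ) := Real.rpow_le_rpow_of_exponent_le hT (by norm_num)
    have h4 : T ^ (0.01 : ℝ) ≤ T ^ (0.0118 : ℝ) := Real.rpow_le_rpow_of_exponent_le hT (by norm_num)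
    have h5 : (q : ℝ) ^ (0.001 : ℝ) / 0.001 = 1000 * (q : ℝ) ^ (0.001 : ℝ) := by norm_num; ring
    linarith
  have b2 : C ^ q.primeFactors.card * (q.divisors.card : ℝ) ^ 2 ≤ B * T ^ (0.0018 : ℝ) := by
    have h1 : (q.divisors.card : ℝ) ^ 2 ≤ 4 ^ q.primeFactors.card := by
      calc (q.divisors.card : ℝ) ^ 2 ≤ (2 ^ q.primeFactors.card) ^ 2 :=
            pow_le_pow_left₀ (Nat.cast_nonneg _) (tau_le q hqsq) 2
        _ = 4 ^ q.primeFactors.card := by rw [← pow_mul, mul_comm, pow_mul]; norm_num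
    calc C ^ q.primeFactors.card * (q.divisors.card : ℝ) ^ 2
        ≤ C ^ q.primeFactors.card * 4 ^ q.primeFactors.card :=
          mul_le_mul_of_nonneg_left h1 (by positivity)
      _ = (4 * C) ^ q.primeFactors.card := by rw [mul_pow, mul_comm]
      _ ≤ B * (q : ℝ) ^ (0.001 : ℝ) := hB q hqpos
      _ ≤ B * T ^ (0.0018 : ℝ) := by
          apply mul_le_mul_of_nonneg_left _ hBpos.le
          calc (q : ℝ) ^ (0.001 : ℝ) ≤ (T ^ (1.8 : ℝ)) ^ (0.001 : ℝ) :=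
                Real.rpow_le_rpow hqr.le hqT (by norm_num)
            _ = T ^ (0.0018 : ℝ) := by rw [← Real.rpow_mul hT0.le]; norm_num
  have b3 : (q : ℝ) ^ κ ≤ T ^ (0.972 : ℝ) := by
    calc (q : ℝ) ^ κ ≤ (q : ℝ) ^ (0.54 : ℝ) := Real.rpow_le_rpow_of_exponent_le hq1r hκ'
      _ ≤ (T ^ (1.8 : ℝ)) ^ (0.54 : ℝ) := Real.rpow_le_rpow hqr.le hqT (by norm_num)
      _ = T ^ (0.972 : ℝ) := by rw [← Real.rpow_mul hT0.le]; norm_num
  have a3 : 128 * T ^ 3 * (T / q + 1 + Real.log q) * C ^ q.primeFactors.card * (q : ℝ) ^ κ *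
          Int.gcd l' q * (q.divisors.card : ℝ) ^ 2 ≤ 128 * 1002 * B * T ^ (3.998 : ℝ) := by
    have hlog : 0 ≤ Real.log q := Real.log_nonneg hq1r
    have c1 : (T / q + 1 + Real.log q) * (C ^ q.primeFactors.card * (q.divisors.card : ℝ) ^ 2) ≤
        (1002 * T ^ (0.0118 : ℝ)) * (B * T ^ (0.0018 : ℝ)) :=
      mul_le_mul b1 b2 (mul_nonneg (pow_nonneg (by linarith) _) (sq_nonneg _))
        (mul_nonneg (by norm_num) (Real.rpow_nonneg hT0.le _))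
    have c2 : (q : ℝ) ^ κ * Int.gcd l' q ≤ T ^ (0.972 : ℝ) * T ^ (0.01 : ℝ) :=
      mul_le_mul b3 hlgcd (Nat.cast_nonneg _) (by positivity)
    have c3 : ((T / q + 1 + Real.log q) * (C ^ q.primeFactors.card * (q.divisors.card : ℝ) ^ 2)) *
        ((q : ℝ) ^ κ * Int.gcd l' q) ≤ ((1002 * T ^ (0.0118 : ℝ)) * (B * T ^ (0.0018 : ℝ))) *
        (T ^ (0.972 : ℝ) * T ^ (0.01 : ℝ)) :=
      mul_le_mul c1 c2 (by positivity) (by positivity)
    have c4 : T ^ 3 * (T ^ (0.0118 : ℝ) * T ^ (0.0018 : ℝ) * (T ^ (0.972 : ℝ) * T ^ (0.01 : ℝ))) =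
        T ^ (3.9956 : ℝ) := by
      rw [← Real.rpow_natCast T 3, ← Real.rpow_add hT0, ← Real.rpow_add hT0, ← Real.rpow_add hT0,
        ← Real.rpow_add hT0]
      norm_num
    have c5 : T ^ (3.9956 : ℝ) ≤ T ^ (3.998 : ℝ) := Real.rpow_le_rpow_of_exponent_le hT (by norm_num)
    calc 128 * T ^ 3 * (T / q + 1 + Real.log q) * C ^ q.primeFactors.card * (q : ℝ) ^ κ *
          Int.gcd l' q * (q.divisors.card : ℝ) ^ 2
        = 128 * T ^ 3 * (((T / q + 1 + Real.log q) * (C ^ q.primeFactors.card *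
            (q.divisors.card : ℝ) ^ 2)) * ((q : ℝ) ^ κ * Int.gcd l' q)) := by ring
      _ ≤ 128 * T ^ 3 * (((1002 * T ^ (0.0118 : ℝ)) * (B * T ^ (0.0018 : ℝ))) *
          (T ^ (0.972 : ℝ) * T ^ (0.01 : ℝ))) := mul_le_mul_of_nonneg_left c3 (by positivity)
      _ = 128 * 1002 * B * (T ^ 3 * (T ^ (0.0118 : ℝ) * T ^ (0.0018 : ℝ) *
          (T ^ (0.972 : ℝ) * T ^ (0.01 : ℝ)))) := by ring
      _ ≤ 128 * 1002 * B * T ^ (3.998 : ℝ) := by
          rw [c4]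
          exact mul_le_mul_of_nonneg_left c5 (by positivity)
  have hfin : ‖∑ t ∈ Ioc s f, H23.LP.fe (q0 * q1 * q2) l (u + v * t)‖ ^ 4 ≤
      (E * T ^ (1 - 0.0005 : ℝ)) ^ 4 := by
    calc ‖∑ t ∈ Ioc s f, H23.LP.fe (q0 * q1 * q2) l (u + v * t)‖ ^ 4
        ≤ ‖∑ y ∈ Finset.Ico (s + 1 + z) (f + 1 + z), K (q1 * (q2 * q)) l' y‖ ^ 4 :=
          pow_le_pow_left₀ (norm_nonneg _) hS 4
      _ ≤ E * T ^ (3.998 : ℝ) := by
          refine key.trans ?_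
          rw [hE]
          nlinarith [a1, a2, a3]
      _ = E * (T ^ (1 - 0.0005 : ℝ)) ^ 4 := by
          rw [← Real.rpow_natCast (T ^ (1 - 0.0005 : ℝ)) 4, ← Real.rpow_mul hT0.le]
          norm_num
      _ ≤ E ^ 4 * (T ^ (1 - 0.0005 : ℝ)) ^ 4 := by
          apply mul_le_mul_of_nonneg_right _ (by positivity)
          exact le_self_pow₀ hE1 (by norm_num)
      _ = _ := by rw [mul_pow]
  exact le_of_pow_le_pow_left₀ (by norm_num) (by positivity) hfin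

end Pool.Agent.H19.QV
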