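import Pool.Agent.H19.QV.Defs

/-!
# [H19 QV LOC] the local bound from Weil's bound

Assume `Weil C κ` (`Defs`), `2 ≤ C`, `0 ≤ κ`.  For every prime `p` and all integers
`l, s1, s2, t`: `|G p l s1 s2 t| ≤ C p^κ gcd(l, p) gcd(s1, p) gcd(s2, p)`.

Proof.  Trivially `|G p l s1 s2 t| ≤ p` (`p` summands bounded by `1`, `norm_K_le`, `norm_e`).
If `p ∣ l s1 s2`, one of the three gcd's is `p`, and the right side is at least
`C p^κ p ≥ p`.  If `p = 2`, the right side is at least `C ≥ 2`.  Let `p ≥ 3`, `p ∤ l s1 s2`.  Write everything in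
`F = ZMod p` (`Finset.Ico 0 p` in `ℤ` ↔ `univ` in `ZMod p` by the cast): `K p l y = ψ(l y⁻¹)` for `y ≠ 0` in `F` and `0` for
`y = 0`, `ψ = ZMod.stdAddChar` (`e_eq_std`, `K_eq`), `e(t y/p) = ψ(t y)`, conjugate of `ψ(z)` is `ψ(-z)`.  So
`G = ∑_{y ∈ F, y ∉ S} ψ(l (y⁻¹ + (y + s1 + s2)⁻¹ - (y + s1)⁻¹ - (y + s2)⁻¹) + t y)`, `S = {0, -s1, -s2, -s1-s2}`.
Put `c(a) = l ([a = 0] + [a = -s1-s2] - [a = -s1] - [a = -s2])`.  Then
`∑_{a ∈ S} c(a) (y - a)⁻¹` is the bracket times `l` (sum over `S` of an indicator `[a = a0] x(a)` with `a0 ∈ S`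
is `x(a0)`).  `c(a) ≠ 0` on `S`: because `s1, s2 ≠ 0` in `F`, `0` and `-s1-s2` are different from `-s1` and `-s2`;
so on `S` the value `c(a)` is `l` or `2 l` (for `a = 0` or `a = -s1-s2`; `2 l` if these two coincide) or
`-l` or `-2 l`, not zero as `p ≥ 3` and `p ∤ l`.  `S` has between `1` and `4` elements, `Weil` gives
`|G| ≤ C p^κ`, and the gcd's are at least `1`.
-/

namespace Pool.Agent.H19.QV

open Finset

private theorem loc_norm_le (p : ℕ) (l s1 s2 t : ℤ) : ‖G p l s1 s2 t‖ ≤ p := by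
  unfold G
  refine (norm_sum_le _ _).trans ?_
  calc ∑ y ∈ Finset.Ico (0 : ℤ) p, ‖K4 p l s1 s2 y * e ((t : ℝ) * y / p)‖
      ≤ ∑ y ∈ Finset.Ico (0 : ℤ) p, (1 : ℝ) := by
        refine Finset.sum_le_sum fun y _ => ?_
        rw [norm_mul, norm_e, mul_one]
        unfold K4
        rw [norm_mul, norm_mul, norm_mul, RCLike.norm_conj, RCLike.norm_conj]
        exact mul_le_one₀ (mul_le_one₀ (mul_le_one₀ (norm_K_le _ _ _) (norm_nonneg _)
          (norm_K_le _ _ _)) (norm_nonneg _) (norm_K_le _ _ _)) (norm_nonneg _) (norm_K_le _ _ _)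
    _ = p := by simp

private theorem loc_K (p : ℕ) [Fact p.Prime] (l y : ℤ) : K p l y =
    if (y : ZMod p) = 0 then 0 else ZMod.stdAddChar ((l : ZMod p) * (y : ZMod p)⁻¹) := by
  have hp := Fact.out (p := p.Prime)
  have hcop : IsCoprime y (p : ℤ) ↔ (y : ZMod p) ≠ 0 := by
    rw [Ne, ZMod.intCast_zmod_eq_zero_iff_dvd, isCoprime_comm]
    exact (Nat.prime_iff_prime_int.1 hp).coprime_iff_not_dvd
  split_ifs with h
  · exact K_of_not p l y fun hc => (hcop.1 hc) h
  · obtain ⟨v, hv⟩ := exists_inv p y (hcop.2 h)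
    rw [K_eq p hp.one_le l y v hv, e_eq_std]
    congr 1
    have h1 : ((y * v - 1 : ℤ) : ZMod p) = 0 := (ZMod.intCast_zmod_eq_zero_iff_dvd _ _).mpr hv
    push_cast at h1 ⊢
    congr 1
    exact eq_inv_of_mul_eq_one_right (sub_eq_zero.mp h1)

private theorem loc_sum (p : ℕ) [Fact p.Prime] (f : ZMod p → ℂ) :
    ∑ y ∈ Finset.Ico (0 : ℤ) p, f (y : ZMod p) = ∑ z : ZMod p, f z := by
  have hp := Fact.out (p := p.Prime)
  have hp0 : 0 < p := hp.pos
  refine Finset.sum_nbij' (fun y : ℤ => (y : ZMod p)) (fun z : ZMod p => ((z.val : ℕ) : ℤ))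
    ?_ ?_ ?_ ?_ ?_
  · intro y _
    exact Finset.mem_univ _
  · intro z _
    rw [Finset.mem_Ico]
    have := ZMod.val_lt z
    omega
  · intro y hy
    rw [Finset.mem_Ico] at hy
    rw [ZMod.val_intCast]
    exact Int.emod_eq_of_lt hy.1 hy.2
  · intro z _
    push_cast
    exact ZMod.natCast_zmod_val z
  · intro y _
    rfl

private theorem loc_main (C κ : ℝ) (hW : Weil C κ) (p : ℕ) [Fact p.Prime] (hp2 : p ≠ 2)
    (l s1 s2 t : ℤ) (hl : (l : ZMod p) ≠ 0) (h1 : (s1 : ZMod p) ≠ 0) (h2 : (s2 : ZMod p) ≠ 0) :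
    ‖G p l s1 s2 t‖ ≤ C * (p : ℝ) ^ κ := by
  classical
  have hp := Fact.out (p := p.Prime)
  obtain ⟨L, hL⟩ : ∃ L, L = (l : ZMod p) := ⟨_, rfl⟩
  obtain ⟨a, ha⟩ : ∃ a, a = (s1 : ZMod p) := ⟨_, rfl⟩
  obtain ⟨b, hb⟩ : ∃ b, b = (s2 : ZMod p) := ⟨_, rfl⟩
  obtain ⟨T, hT⟩ : ∃ T, T = (t : ZMod p) := ⟨_, rfl⟩
  rw [← hL] at hl
  rw [← ha] at h1
  rw [← hb] at h2
  have htwo : (2 : ZMod p) ≠ 0 := by
    intro h
    have h3 : ((2 : ℕ) : ZMod p) = 0 := by exact_mod_cast h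
    rw [ZMod.natCast_eq_zero_iff] at h3
    exact hp2 ((Nat.prime_dvd_prime_iff_eq hp Nat.prime_two).1 h3)
  obtain ⟨S, hS⟩ : ∃ S : Finset (ZMod p), S = {0, -a, -b, -a - b} := ⟨_, rfl⟩
  obtain ⟨c, hc⟩ : ∃ c : ZMod p → ZMod p, ∀ z, c z = L * ((if z = 0 then 1 else 0) +
      (if z = -a - b then 1 else 0) - (if z = -a then 1 else 0) - (if z = -b then 1 else 0)) :=
    ⟨_, fun _ => rfl⟩
  have hSm : ∀ z, z ∈ S ↔ z = 0 ∨ z = -a ∨ z = -b ∨ z = -a - b := by
    intro z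
    rw [hS]
    simp only [Finset.mem_insert, Finset.mem_singleton]
  -- the coefficients
  have hcS : ∀ z ∈ S, c z ≠ 0 := by
    intro z hz
    rw [hSm] at hz
    rw [hc]
    apply mul_ne_zero hl
    have e1 : ¬ ((0 : ZMod p) = -a) := fun h => h1 (by linear_combination h)
    have e2 : ¬ ((0 : ZMod p) = -b) := fun h => h2 (by linear_combination h)
    have e3 : ¬ (-a = (0 : ZMod p)) := fun h => h1 (by linear_combination -h)
    have e4 : ¬ (-b = (0 : ZMod p)) := fun h => h2 (by linear_combination -h)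
    have e5 : ¬ (-a = -a - b) := fun h => h2 (by linear_combination h)
    have e6 : ¬ (-b = -a - b) := fun h => h1 (by linear_combination h)
    have e7 : ¬ (-a - b = -a) := fun h => h2 (by linear_combination -h)
    have e8 : ¬ (-a - b = -b) := fun h => h1 (by linear_combination -h)
    have f1 : (1 + 1 - 0 - 0 : ZMod p) ≠ 0 := by
      intro h
      exact htwo (by linear_combination h)
    have f2 : (1 + 0 - 0 - 0 : ZMod p) ≠ 0 := by
      intro h
      exact one_ne_zero (α := ZMod p) (by linear_combination h)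
    have f3 : (0 + 0 - 1 - 0 : ZMod p) ≠ 0 := by
      intro h
      exact one_ne_zero (α := ZMod p) (by linear_combination -h)
    have f4 : (0 + 0 - 1 - 1 : ZMod p) ≠ 0 := by
      intro h
      exact htwo (by linear_combination -h)
    have f5 : (0 + 0 - 0 - 1 : ZMod p) ≠ 0 := by
      intro h
      exact one_ne_zero (α := ZMod p) (by linear_combination -h)
    have f6 : (0 + 1 - 0 - 0 : ZMod p) ≠ 0 := by
      intro h
      exact one_ne_zero (α := ZMod p) (by linear_combination h)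
    rcases hz with rfl | rfl | rfl | rfl
    · rw [if_pos rfl, if_neg e1, if_neg e2]
      split_ifs
      · exact f1
      · exact f2
    · rw [if_neg e3, if_neg e5, if_pos rfl]
      split_ifs
      · exact f4
      · exact f3
    · rw [if_neg e4, if_neg e6, if_pos rfl]
      split_ifs
      · exact f4
      · exact f5
    · rw [if_pos rfl, if_neg e7, if_neg e8]
      split_ifs
      · exact f1
      · exact f6
  have hsum : ∀ y : ZMod p, ∑ z ∈ S, c z * (y - z)⁻¹ =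
      L * (y⁻¹ + (y + a + b)⁻¹ - (y + a)⁻¹ - (y + b)⁻¹) := by
    intro y
    have g : ∀ z0 ∈ S, ∑ z ∈ S, (if z = z0 then 1 else 0) * (y - z)⁻¹ = (y - z0)⁻¹ := by
      intro z0 hz0
      rw [Finset.sum_eq_single z0]
      · rw [if_pos rfl, one_mul]
      · intro z _ hz
        rw [if_neg hz, zero_mul]
      · intro h
        exact absurd hz0 h
    have g0 := g 0 ((hSm _).2 (Or.inl rfl))
    have g1 := g (-a) ((hSm _).2 (Or.inr (Or.inl rfl)))
    have g2 := g (-b) ((hSm _).2 (Or.inr (Or.inr (Or.inl rfl))))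
    have g3 := g (-a - b) ((hSm _).2 (Or.inr (Or.inr (Or.inr rfl))))
    have g4 : ∑ z ∈ S, c z * (y - z)⁻¹ =
        L * (∑ z ∈ S, (if z = 0 then 1 else 0) * (y - z)⁻¹ +
        ∑ z ∈ S, (if z = -a - b then 1 else 0) * (y - z)⁻¹ -
        ∑ z ∈ S, (if z = -a then 1 else 0) * (y - z)⁻¹ -
        ∑ z ∈ S, (if z = -b then 1 else 0) * (y - z)⁻¹) := by
      rw [← Finset.sum_add_distrib, ← Finset.sum_sub_distrib, ← Finset.sum_sub_distrib,
        Finset.mul_sum]
      refine Finset.sum_congr rfl fun z _ => ?_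
      rw [hc]
      ring
    rw [g4, g0, g1, g2, g3]
    rw [show y - 0 = y by ring, show y - (-a - b) = y + a + b by ring,
      show y - -a = y + a by ring, show y - -b = y + b by ring]
  have hG : G p l s1 s2 t = ws p S c T := by
    obtain ⟨f, hf⟩ : ∃ f : ZMod p → ℂ, ∀ y, f y = if y ∈ S then 0 else
        ZMod.stdAddChar (∑ z ∈ S, c z * (y - z)⁻¹ + T * y) := ⟨_, fun _ => rfl⟩
    have e1 : ws p S c T = ∑ y : ZMod p, f y := by
      unfold ws
      rw [← Finset.sum_subset (Finset.subset_univ (Finset.univ \ S)) (f := f)]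
      · refine Finset.sum_congr rfl fun y hy => ?_
        rw [hf, if_neg (Finset.mem_sdiff.1 hy).2]
      · intro y _ hy
        have : y ∈ S := by
          by_contra h
          exact hy (Finset.mem_sdiff.2 ⟨Finset.mem_univ _, h⟩)
        rw [hf, if_pos this]
    rw [e1, ← loc_sum]
    unfold G
    refine Finset.sum_congr rfl fun y _ => ?_
    have e2 : e ((t : ℝ) * y / p) = ZMod.stdAddChar (T * (y : ZMod p)) := by
      have h5 := e_eq_std p (t * y)
      push_cast at h5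
      rw [h5, hT]
    obtain ⟨Y, hY⟩ : ∃ Y, Y = (y : ZMod p) := ⟨_, rfl⟩
    rw [e2, hf]
    unfold K4
    rw [loc_K, loc_K, loc_K, loc_K]
    push_cast
    rw [← hL, ← ha, ← hb, ← hY]
    by_cases hyS : Y ∈ S
    · rw [if_pos hyS]
      rw [hSm] at hyS
      rcases hyS with h | h | h | h
      · rw [if_pos h, mul_zero, zero_mul]
      · rw [if_pos (show Y + a = 0 by rw [h]; ring), map_zero, mul_zero, zero_mul, zero_mul]
      · rw [if_pos (show Y + b = 0 by rw [h]; ring), map_zero, mul_zero, zero_mul, zero_mul,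
          zero_mul]
      · rw [if_pos (show Y + a + b = 0 by rw [h]; ring), zero_mul, zero_mul, zero_mul, zero_mul]
    · rw [if_neg hyS]
      rw [hSm] at hyS
      push Not at hyS
      rw [if_neg (show ¬ Y + a + b = 0 from fun h => hyS.2.2.2 (by linear_combination h)),
        if_neg (show ¬ Y + b = 0 from fun h => hyS.2.2.1 (by linear_combination h)),
        if_neg (show ¬ Y + a = 0 from fun h => hyS.2.1 (by linear_combination h)),
        if_neg hyS.1, ← AddChar.map_neg_eq_conj, ← AddChar.map_neg_eq_conj,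
        ← AddChar.map_add_eq_mul, ← AddChar.map_add_eq_mul, ← AddChar.map_add_eq_mul,
        ← AddChar.map_add_eq_mul, hsum]
      congr 1
      ring
  rw [hG]
  apply hW p S c T ⟨0, (hSm _).2 (Or.inl rfl)⟩ _ hcS
  rw [hS]
  exact Finset.card_le_four

theorem G_loc (C κ : ℝ) (hW : Weil C κ) (hC : 2 ≤ C) (hκ : 0 ≤ κ) (p : ℕ) (hp : p.Prime)
    (l s1 s2 t : ℤ) :
    ‖G p l s1 s2 t‖ ≤ C * (p : ℝ) ^ κ * ((Int.gcd l p : ℝ) * Int.gcd s1 p * Int.gcd s2 p) := by
  have : Fact p.Prime := ⟨hp⟩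
  have hp1 : (1 : ℝ) ≤ p := by exact_mod_cast hp.one_le
  have hpk : 1 ≤ (p : ℝ) ^ κ := Real.one_le_rpow hp1 hκ
  have hg : ∀ s : ℤ, (1 : ℝ) ≤ (Int.gcd s p : ℝ) := by
    intro s
    have h : 0 < Int.gcd s p := Int.gcd_pos_of_ne_zero_right _ (by exact_mod_cast hp.ne_zero)
    exact_mod_cast h
  have hg1 := hg l
  have hg2 := hg s1
  have hg3 := hg s2
  have hCp : 2 ≤ C * (p : ℝ) ^ κ := by nlinarith
  have hdiv : ∀ s : ℤ, (s : ZMod p) = 0 → (Int.gcd s p : ℝ) = p := by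
    intro s hs
    have h := (ZMod.intCast_zmod_eq_zero_iff_dvd _ _).1 hs
    have h2 : Int.gcd s p = p := by
      have h3 := Int.gcd_eq_right_iff_dvd (a := s) (b := (p : ℤ)) (by positivity)
      have h4 := h3.2 h
      exact_mod_cast h4
    rw [h2]
  have htriv : ∀ g1 g2 g3 : ℝ, 1 ≤ g1 → 1 ≤ g2 → 1 ≤ g3 → g1 = p ∨ g2 = p ∨ g3 = p →
      ‖G p l s1 s2 t‖ ≤ C * (p : ℝ) ^ κ * (g1 * g2 * g3) := by
    intro g1 g2 g3 h1 h2 h3 h4
    refine (loc_norm_le p l s1 s2 t).trans ?_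
    have h12 : 1 ≤ g1 * g2 := one_le_mul_of_one_le_of_one_le h1 h2
    have h123 : (p : ℝ) ≤ g1 * g2 * g3 := by
      rcases h4 with h | h | h
      · rw [← h]
        calc g1 = g1 * 1 * 1 := by ring
          _ ≤ g1 * g2 * g3 := by gcongr
      · rw [← h]
        calc g2 = 1 * g2 * 1 := by ring
          _ ≤ g1 * g2 * g3 := by gcongr
      · rw [← h]
        calc g3 = 1 * g3 := by ring
          _ ≤ g1 * g2 * g3 := by gcongr
    nlinarith
  by_cases h1 : (l : ZMod p) = 0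
  · exact htriv _ _ _ hg1 hg2 hg3 (Or.inl (hdiv l h1))
  by_cases h2 : (s1 : ZMod p) = 0
  · exact htriv _ _ _ hg1 hg2 hg3 (Or.inr (Or.inl (hdiv s1 h2)))
  by_cases h3 : (s2 : ZMod p) = 0
  · exact htriv _ _ _ hg1 hg2 hg3 (Or.inr (Or.inr (hdiv s2 h3)))
  have hprod : 1 ≤ (Int.gcd l p : ℝ) * Int.gcd s1 p * Int.gcd s2 p :=
    one_le_mul_of_one_le_of_one_le (one_le_mul_of_one_le_of_one_le hg1 hg2) hg3
  have hfin : C * (p : ℝ) ^ κ ≤
      C * (p : ℝ) ^ κ * ((Int.gcd l p : ℝ) * Int.gcd s1 p * Int.gcd s2 p) :=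
    le_mul_of_one_le_right (by linarith) hprod
  refine le_trans ?_ hfin
  by_cases hp2 : p = 2
  · refine (loc_norm_le p l s1 s2 t).trans (le_trans ?_ hCp)
    rw [hp2]
    norm_num
  · exact loc_main C κ hW p hp2 l s1 s2 t h1 h2 h3

end Pool.Agent.H19.QV
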