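import Pool.Agent.H19.QV.CRT

/-!
# [H19 QV MUL] twisted multiplicativity of the complete sums `G`

`m, n ≥ 1`, `n nb ≡ 1 (mod m)`, `m mb ≡ 1 (mod n)`:
`G (m n) l s1 s2 t = G m (l nb) s1 s2 (t nb) * G n (l mb) s1 s2 (t mb)`.

Proof.  By `K_mul` and `e_mul` (with `x = t y`) the summand of `G (m n)` at `y` is `f(y) h(y)`,
`f(y) = K4 m (l nb) s1 s2 y * e(t nb y / m)`, `h(y) = K4 n (l mb) s1 s2 y * e(t mb y / n)`
(rearrange the eight factors), `f` is periodic mod `m`, `h` periodic mod `n` (`K_congr`, `e_div_congr`).  The map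
`[0, m n) → [0, m) × [0, n)`, `y ↦ (y mod m, y mod n)` is a bijection (Chinese remainder theorem;
`m, n` coprime because `m mb ≡ 1 (mod n)`), so the sum is `(∑_{a < m} f(a)) (∑_{b < n} h(b))`.
(`crt_sum` below is the general statement for periodic functions; injectivity from `IsCoprime.mul_dvd`,
surjectivity by counting, `Finset.card_bij`/`Finset.eq_of_subset_of_card_le`, or by explicit inverse
`(a, b) ↦ (a n nb + b m mb) mod m n`.)
-/

namespace Pool.Agent.H19.QV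

open Finset

theorem crt_sum (m n : ℕ) (hm : 1 ≤ m) (hn : 1 ≤ n) (nb mb : ℤ) (h1 : (m : ℤ) ∣ n * nb - 1)
    (h2 : (n : ℤ) ∣ m * mb - 1) (f h : ℤ → ℂ)
    (hf : ∀ y y' : ℤ, (m : ℤ) ∣ y - y' → f y = f y') (hh : ∀ y y' : ℤ, (n : ℤ) ∣ y - y' → h y = h y') :
    ∑ y ∈ Finset.Ico (0 : ℤ) ((m * n : ℕ) : ℤ), f y * h y =
      (∑ y ∈ Finset.Ico (0 : ℤ) m, f y) * ∑ y ∈ Finset.Ico (0 : ℤ) n, h y := by
  have hm0 : (0 : ℤ) < m := by exact_mod_cast hm
  have hn0 : (0 : ℤ) < n := by exact_mod_cast hn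
  have hmn0 : (0 : ℤ) < ((m * n : ℕ) : ℤ) := by exact_mod_cast Nat.mul_pos hm hn
  have hc : IsCoprime (m : ℤ) (n : ℤ) := by
    obtain ⟨k, hk⟩ := h2
    exact ⟨mb, -k, by linear_combination hk⟩
  have hmodm : ∀ y : ℤ, (m : ℤ) ∣ y - y % m := fun y => ⟨y / m, by linarith [Int.emod_add_mul_ediv y m]⟩
  have hmodn : ∀ y : ℤ, (n : ℤ) ∣ y - y % n := fun y => ⟨y / n, by linarith [Int.emod_add_mul_ediv y n]⟩
  have hmodmn : ∀ y : ℤ, ((m * n : ℕ) : ℤ) ∣ y - y % ((m * n : ℕ) : ℤ) :=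
    fun y => ⟨y / ((m * n : ℕ) : ℤ), by linarith [Int.emod_add_mul_ediv y ((m * n : ℕ) : ℤ)]⟩
  have huniq : ∀ (q x y : ℤ), 0 ≤ x → x < q → 0 ≤ y → y < q → q ∣ x - y → x = y := by
    intro q x y hx hxq hy hyq hd
    have h3 : y % q = x % q := (Int.modEq_iff_dvd).mpr hd
    rw [Int.emod_eq_of_lt hx hxq, Int.emod_eq_of_lt hy hyq] at h3
    exact h3.symm
  -- the inverse map
  have hja : ∀ a b : ℤ, (m : ℤ) ∣ (a * (n * nb) + b * (m * mb)) - a := by
    intro a b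
    have := dvd_add (h1.mul_left a) (Dvd.intro (b * mb) (rfl : (m : ℤ) * (b * mb) = m * (b * mb)))
    rwa [show a * ((n : ℤ) * nb - 1) + m * (b * mb) = (a * (n * nb) + b * (m * mb)) - a by ring] at this
  have hjb : ∀ a b : ℤ, (n : ℤ) ∣ (a * (n * nb) + b * (m * mb)) - b := by
    intro a b
    have := dvd_add (h2.mul_left b) (Dvd.intro (a * nb) (rfl : (n : ℤ) * (a * nb) = n * (a * nb)))
    rwa [show b * ((m : ℤ) * mb - 1) + n * (a * nb) = (a * (n * nb) + b * (m * mb)) - b by ring] at this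
  rw [Finset.sum_mul_sum, ← Finset.sum_product']
  refine Finset.sum_nbij' (fun y => (y % m, y % n))
    (fun p => (p.1 * (n * nb) + p.2 * (m * mb)) % ((m * n : ℕ) : ℤ)) ?_ ?_ ?_ ?_ ?_
  · intro y _
    rw [Finset.mem_product, Finset.mem_Ico, Finset.mem_Ico]
    exact ⟨⟨Int.emod_nonneg y hm0.ne', Int.emod_lt_of_pos y hm0⟩,
      Int.emod_nonneg y hn0.ne', Int.emod_lt_of_pos y hn0⟩
  · intro p _
    rw [Finset.mem_Ico]
    exact ⟨Int.emod_nonneg _ hmn0.ne', Int.emod_lt_of_pos _ hmn0⟩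
  · intro y hy
    rw [Finset.mem_Ico] at hy
    simp only
    refine huniq ((m * n : ℕ) : ℤ) _ _ (Int.emod_nonneg _ hmn0.ne') (Int.emod_lt_of_pos _ hmn0) hy.1 hy.2 ?_
    set z : ℤ := y % m * (n * nb) + y % n * (m * mb) with hz
    have h3 : ((m * n : ℕ) : ℤ) ∣ z - y := by
      push_cast
      refine hc.mul_dvd ?_ ?_
      · have := dvd_sub (hja (y % m) (y % n)) (hmodm y)
        rwa [← hz, show z - y % m - (y - y % m) = z - y by ring] at this
      · have := dvd_sub (hjb (y % m) (y % n)) (hmodn y)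
        rwa [← hz, show z - y % n - (y - y % n) = z - y by ring] at this
    have := dvd_sub h3 (hmodmn z)
    rwa [show z - y - (z - z % ((m * n : ℕ) : ℤ)) = z % ((m * n : ℕ) : ℤ) - y by ring] at this
  · rintro ⟨a, b⟩ hp
    rw [Finset.mem_product, Finset.mem_Ico, Finset.mem_Ico] at hp
    simp only at hp ⊢
    set z : ℤ := a * (n * nb) + b * (m * mb) with hz
    have hm' : (m : ℤ) ∣ z - z % ((m * n : ℕ) : ℤ) :=
      dvd_trans (by push_cast; exact Dvd.intro _ rfl) (hmodmn z)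
    have hn' : (n : ℤ) ∣ z - z % ((m * n : ℕ) : ℤ) :=
      dvd_trans (by push_cast; exact Dvd.intro_left _ rfl) (hmodmn z)
    rw [Prod.mk.injEq]
    constructor
    · refine huniq m _ _ (Int.emod_nonneg _ hm0.ne') (Int.emod_lt_of_pos _ hm0) hp.1.1 hp.1.2 ?_
      have h4 := dvd_sub (dvd_sub (hja a b) hm') (hmodm (z % ((m * n : ℕ) : ℤ)))
      rwa [← hz, show z - a - (z - z % ((m * n : ℕ) : ℤ)) -
        (z % ((m * n : ℕ) : ℤ) - z % ((m * n : ℕ) : ℤ) % m) = z % ((m * n : ℕ) : ℤ) % m - a by ring] at h4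
    · refine huniq n _ _ (Int.emod_nonneg _ hn0.ne') (Int.emod_lt_of_pos _ hn0) hp.2.1 hp.2.2 ?_
      have h4 := dvd_sub (dvd_sub (hjb a b) hn') (hmodn (z % ((m * n : ℕ) : ℤ)))
      rwa [← hz, show z - b - (z - z % ((m * n : ℕ) : ℤ)) -
        (z % ((m * n : ℕ) : ℤ) - z % ((m * n : ℕ) : ℤ) % n) = z % ((m * n : ℕ) : ℤ) % n - b by ring] at h4
  · intro y _
    simp only
    rw [hf y (y % m) (hmodm y), hh y (y % n) (hmodn y)]

private theorem K4_congr (q : ℕ) (hq : 1 ≤ q) (l s1 s2 y y' : ℤ) (h : (q : ℤ) ∣ y - y') :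
    K4 q l s1 s2 y = K4 q l s1 s2 y' := by
  unfold K4
  rw [K_congr q hq l (y + s1 + s2) (y' + s1 + s2)
      (by rwa [show y + s1 + s2 - (y' + s1 + s2) = y - y' by ring]),
    K_congr q hq l (y + s2) (y' + s2) (by rwa [show y + s2 - (y' + s2) = y - y' by ring]),
    K_congr q hq l (y + s1) (y' + s1) (by rwa [show y + s1 - (y' + s1) = y - y' by ring]),
    K_congr q hq l y y' h]

theorem G_mul (m n : ℕ) (hm : 1 ≤ m) (hn : 1 ≤ n) (nb mb : ℤ) (h1 : (m : ℤ) ∣ n * nb - 1)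
    (h2 : (n : ℤ) ∣ m * mb - 1) (l s1 s2 t : ℤ) :
    G (m * n) l s1 s2 t = G m (l * nb) s1 s2 (t * nb) * G n (l * mb) s1 s2 (t * mb) := by
  unfold G
  rw [← crt_sum m n hm hn nb mb h1 h2
    (fun y => K4 m (l * nb) s1 s2 y * e (((t * nb : ℤ) : ℝ) * y / m))
    (fun y => K4 n (l * mb) s1 s2 y * e (((t * mb : ℤ) : ℝ) * y / n))]
  · refine Finset.sum_congr rfl fun y _ => ?_
    have he : e ((t : ℝ) * y / ((m * n : ℕ) : ℝ)) =
        e (((t * nb : ℤ) : ℝ) * y / m) * e (((t * mb : ℤ) : ℝ) * y / n) := by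
      have := e_mul m n hm hn nb mb h1 h2 (t * y)
      rw [show (t : ℝ) * y / ((m * n : ℕ) : ℝ) = ((t * y : ℤ) : ℝ) / ((m * n : ℕ) : ℝ) by push_cast; ring,
        this]
      congr 2 <;> (push_cast; ring)
    rw [he]
    unfold K4
    rw [K_mul m n hm hn nb mb h1 h2, K_mul m n hm hn nb mb h1 h2, K_mul m n hm hn nb mb h1 h2,
      K_mul m n hm hn nb mb h1 h2, map_mul, map_mul]
    ring
  · intro y y' h
    rw [K4_congr m hm _ _ _ y y' h]
    congr 1
    have := e_div_congr m hm (t * nb * y) (t * nb * y') (by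
      rw [← mul_sub]; exact h.mul_left _)
    push_cast at this ⊢
    exact this
  · intro y y' h
    rw [K4_congr n hn _ _ _ y y' h]
    congr 1
    have := e_div_congr n hn (t * mb * y) (t * mb * y') (by
      rw [← mul_sub]; exact h.mul_left _)
    push_cast at this ⊢
    exact this

end Pool.Agent.H19.QV
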