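import Pool.Agent.H19.QV.MUL
import Pool.Agent.H19.QV.LOC

/-!
# [H19 QV SQF] complete sums to squarefree moduli

Assume `Weil C κ`, `2 ≤ C`, `0 ≤ κ`.  For squarefree `q` and all integers `l, s1, s2, t`:
`|G q l s1 s2 t| ≤ C^ω(q) q^κ gcd(l, q) gcd(s1, q) gcd(s2, q)`, `ω(q) = q.primeFactors.card`.

Proof.  Induction on `q`.  `q = 1`: `G 1 = ` one summand, bounded by `1` (`norm_K_le`, `norm_e`).
`q > 1`: `p = q.minFac`, `q = p m`, `p, m` coprime, `m` squarefree (`Nat.squarefree_mul_iff`,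
`Nat.coprime_of_squarefree_mul`).  Choose `nb, mb` with `m nb ≡ 1 (mod p)`, `p mb ≡ 1 (mod m)`
(`exists_inv`); `G_mul`, `G_loc` for `p`, the induction hypothesis for `m`; `gcd(l nb, p) = gcd(l, p)` and
`gcd(l mb, m) = gcd(l, m)` because `nb`, `mb` are coprime to `p`, `m`; `gcd(l, p) gcd(l, m) = gcd(l, p m)` (coprime;
`Nat.Coprime.gcd_mul`), `ω(p m) = 1 + ω(m)` (`Nat.Coprime.primeFactors_mul`, or
`Nat.Prime.primeFactors`, disjoint union), `(p m)^κ = p^κ m^κ` (`Real.mul_rpow`).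
-/

namespace Pool.Agent.H19.QV

open Finset

private theorem sqf_gcd (l v : ℤ) (p : ℕ) (w : ℤ) (h : (p : ℤ) ∣ w * v - 1) :
    Int.gcd (l * v) p = Int.gcd l p := by
  have hc : IsCoprime v (p : ℤ) := by
    obtain ⟨n, hn⟩ := h
    exact ⟨w, -n, by linarith⟩
  have hc' : Nat.Coprime v.natAbs p := by
    have := Int.isCoprime_iff_gcd_eq_one.1 hc
    rwa [Int.gcd, Int.natAbs_natCast] at this
  rw [Int.gcd, Int.gcd, Int.natAbs_natCast, Int.natAbs_mul]
  exact Nat.Coprime.gcd_mul_right_cancel _ hc'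

private theorem sqf_gcd_mul (s : ℤ) (p m : ℕ) (h : Nat.Coprime p m) :
    ((Int.gcd s p : ℕ) : ℝ) * (Int.gcd s m : ℕ) = (Int.gcd s ((p * m : ℕ) : ℤ) : ℕ) := by
  rw [Int.gcd, Int.gcd, Int.gcd, Int.natAbs_natCast, Int.natAbs_natCast, Int.natAbs_natCast,
    Nat.Coprime.gcd_mul _ h]
  push_cast
  rfl

theorem G_sqf (C κ : ℝ) (hW : Weil C κ) (hC : 2 ≤ C) (hκ : 0 ≤ κ) (q : ℕ) (hq : Squarefree q)
    (l s1 s2 t : ℤ) :
    ‖G q l s1 s2 t‖ ≤ C ^ q.primeFactors.card * (q : ℝ) ^ κ *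
      ((Int.gcd l q : ℝ) * Int.gcd s1 q * Int.gcd s2 q) := by
  induction q using Nat.strong_induction_on generalizing l s1 s2 t with
  | _ q ih =>
  have hq0 : q ≠ 0 := hq.ne_zero
  rcases Nat.lt_or_ge 1 q with h1 | h1
  · have hp : q.minFac.Prime := Nat.minFac_prime (by omega)
    obtain ⟨m, hm⟩ := Nat.minFac_dvd q
    obtain ⟨p, hpe⟩ : ∃ p, p = q.minFac := ⟨_, rfl⟩
    rw [← hpe] at hp hm
    have hp2 := hp.two_le
    have hm0 : 1 ≤ m := by
      rcases Nat.eq_zero_or_pos m with h | h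
      · rw [h, mul_zero] at hm
        exact absurd hm hq0
      · exact h
    have hmq : m < q := by
      rw [hm]
      nlinarith
    have hsq := hq
    rw [hm, Nat.squarefree_mul_iff] at hsq
    obtain ⟨hcop, -, hsm⟩ := hsq
    have hc1 : IsCoprime (m : ℤ) (p : ℤ) := Nat.isCoprime_iff_coprime.2 hcop.symm
    have hc2 : IsCoprime (p : ℤ) (m : ℤ) := Nat.isCoprime_iff_coprime.2 hcop
    obtain ⟨nb, hnb⟩ := exists_inv p m hc1
    obtain ⟨mb, hmb⟩ := exists_inv m p hc2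
    have e1 := G_mul p m (by omega) hm0 nb mb hnb hmb l s1 s2 t
    have b1 := G_loc C κ hW hC hκ p hp (l * nb) s1 s2 (t * nb)
    have b2 := ih m hmq hsm (l * mb) s1 s2 (t * mb)
    rw [sqf_gcd l nb p m hnb] at b1
    rw [sqf_gcd l mb m p hmb] at b2
    have hcard : q.primeFactors.card = 1 + m.primeFactors.card := by
      rw [hm, hcop.primeFactors_mul, card_union_of_disjoint hcop.disjoint_primeFactors,
        hp.primeFactors, card_singleton]
    have hpow : (q : ℝ) ^ κ = (p : ℝ) ^ κ * (m : ℝ) ^ κ := by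
      rw [hm, Nat.cast_mul, Real.mul_rpow (Nat.cast_nonneg _) (Nat.cast_nonneg _)]
    rw [hcard, hpow]
    have hgl := sqf_gcd_mul l p m hcop
    have hg1 := sqf_gcd_mul s1 p m hcop
    have hg2 := sqf_gcd_mul s2 p m hcop
    rw [← hm] at hgl hg1 hg2 e1
    rw [e1, norm_mul, ← hgl, ← hg1, ← hg2]
    refine (mul_le_mul b1 b2 (norm_nonneg _) (le_trans (norm_nonneg _) b1)).trans (le_of_eq ?_)
    rw [pow_add, pow_one]
    ring
  · have hq1 : q = 1 := by omega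
    subst hq1
    have e1 : G 1 l s1 s2 t = K4 1 l s1 s2 0 * e ((t : ℝ) * ((0 : ℤ) : ℝ) / ((1 : ℕ) : ℝ)) := by
      unfold G
      have : Finset.Ico (0 : ℤ) ((1 : ℕ) : ℤ) = {0} := by decide
      rw [this, sum_singleton]
    rw [e1, norm_mul, norm_e, mul_one]
    have e2 : ‖K4 1 l s1 s2 0‖ ≤ 1 := by
      unfold K4
      rw [norm_mul, norm_mul, norm_mul, RCLike.norm_conj, RCLike.norm_conj]
      have a1 := norm_K_le 1 l (0 + s1 + s2)
      have a2 := norm_K_le 1 l (0 + s2)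
      have a3 := norm_K_le 1 l (0 + s1)
      have a4 := norm_K_le 1 l 0
      refine mul_le_one₀ (mul_le_one₀ (mul_le_one₀ a1 (norm_nonneg _) a2) (norm_nonneg _) a3)
        (norm_nonneg _) a4
    refine e2.trans ?_
    simp

end Pool.Agent.H19.QV
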