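import Pool.Agent.H19.QV.TWO
import Pool.Agent.H19.QV.COM
import Pool.Agent.H19.QV.SQF
import Pool.Agent.H19.QV.GCD

/-!
# [H19 QV QTH] THEOREM Q

Assume `Weil C κ`, `2 ≤ C`, `0 ≤ κ`.  Let `q0, q1, q2 ≥ 1` be pairwise coprime, `q0` squarefree, `q1, q2 ≤ T`,
`v - u ≤ T`.  Then
`|∑_{u ≤ y < v} K (q1 q2 q0) l y|⁴ ≤ 32 T² q1² + 128 T³ q2
   + 128 T³ (T/q0 + 1 + log q0) C^ω(q0) q0^κ gcd(l, q0) τ(q0)²`.

Proof.  `q1 (q2 q0)` and `q2 q0` are products of coprime factors: choose inverses (`exists_inv`) and use `K_mul` twice: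
`K (q1 (q2 q0)) l y = K q1 l1 y * (K q2 l2 y * K q0 l0 y)` where `l0 = l x x'` with `x, x'` coprime to `q0`
(inverses of `q1`, `q2` modulo `q2 q0`, `q0`), so `gcd(l0, q0) = gcd(l, q0)` (`gcd_mul_coprime`).
Put `H1 = ⌊T/q1⌋₊ ≥ 1`, `H2 = ⌊T/q2⌋₊ ≥ 1`: `H_j q_j ≤ T`, `H_j ≥ T/(2 q_j)`.  `two_step` with `g_j = K q_j l_j`
(periodic, `K_period`; bounded, `norm_K_le`), `k = K q0 l0`:
`8T⁴/H1² ≤ 32 T² q1²`, `64T⁴/H2 ≤ 128 T³ q2`.  The inner sums are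
`∑_{u ≤ y < v - ...} K4 q0 l0 (r q1) (i q2) y`; `completion` with `F = K4 q0 l0 (r q1) (i q2)` (periodic, the Fourier
coefficients are `G q0 l0 (r q1) (i q2) t`) and `G_sqf` bound them by
`(T/q0 + 1 + log q0) C^ω(q0) q0^κ gcd(l, q0) gcd(r, q0) gcd(i, q0)`
(`gcd(r q1, q0) = gcd(r, q0)`).  Sum over `r < H1`, `i < H2` with `sum_gcd`.
-/

namespace Pool.Agent.H19.QV

open Finset

private theorem cop_of_dvd (q : ℕ) (a b : ℤ) (h : (q : ℤ) ∣ a * b - 1) : IsCoprime b (q : ℤ) := by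
  obtain ⟨n, hn⟩ := h
  exact ⟨a, -n, by linear_combination hn⟩

private theorem floor_facts (T : ℝ) (q : ℕ) (hq : 1 ≤ q) (hT : (q : ℝ) ≤ T) :
    1 ≤ ⌊T / q⌋₊ ∧ ((⌊T / q⌋₊ : ℕ) : ℝ) * q ≤ T ∧ T / (2 * q) ≤ ((⌊T / q⌋₊ : ℕ) : ℝ) := by
  have hq' : (0 : ℝ) < q := by exact_mod_cast hq
  have h1 : (1 : ℝ) ≤ T / q := by rwa [le_div_iff₀ hq', one_mul]
  have h2 : 1 ≤ ⌊T / q⌋₊ := by
    rw [Nat.one_le_floor_iff]
    exact h1
  have h3 : ((⌊T / q⌋₊ : ℕ) : ℝ) ≤ T / q := Nat.floor_le (by linarith)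
  have h4 : T / q < (⌊T / q⌋₊ : ℕ) + 1 := Nat.lt_floor_add_one _
  have h5 : (1 : ℝ) ≤ ((⌊T / q⌋₊ : ℕ) : ℝ) := by exact_mod_cast h2
  refine ⟨h2, ?_, ?_⟩
  · rwa [le_div_iff₀ hq'] at h3
  · have : T / (2 * q) = (T / q) / 2 := by field_simp
    rw [this]
    linarith

theorem theoremQ (C κ : ℝ) (hW : Weil C κ) (hC : 2 ≤ C) (hκ : 0 ≤ κ) (q0 q1 q2 : ℕ)
    (h0 : Squarefree q0) (hq1 : 1 ≤ q1) (hq2 : 1 ≤ q2) (h01 : Nat.Coprime q0 q1)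
    (h02 : Nat.Coprime q0 q2) (h12 : Nat.Coprime q1 q2) (T : ℝ) (hT1 : (q1 : ℝ) ≤ T)
    (hT2 : (q2 : ℝ) ≤ T) (u v : ℤ) (huv : ((v - u : ℤ) : ℝ) ≤ T) (l : ℤ) :
    ‖∑ y ∈ Finset.Ico u v, K (q1 * (q2 * q0)) l y‖ ^ 4 ≤
      32 * T ^ 2 * (q1 : ℝ) ^ 2 + 128 * T ^ 3 * q2 +
        128 * T ^ 3 * (T / q0 + 1 + Real.log q0) * C ^ q0.primeFactors.card * (q0 : ℝ) ^ κ *
          Int.gcd l q0 * (q0.divisors.card : ℝ) ^ 2 := by
  have hq0 : 1 ≤ q0 := Nat.pos_of_ne_zero h0.ne_zero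
  have hq1' : (0 : ℝ) < q1 := by exact_mod_cast hq1
  have hq2' : (0 : ℝ) < q2 := by exact_mod_cast hq2
  have hq0' : (0 : ℝ) < q0 := by exact_mod_cast hq0
  have hq1'' : (1 : ℝ) ≤ q1 := by exact_mod_cast hq1
  have hT0 : (0 : ℝ) < T := by linarith
  -- inverses
  have hc1 : IsCoprime (q1 : ℤ) ((q2 * q0 : ℕ) : ℤ) :=
    Nat.isCoprime_iff_coprime.mpr (Nat.Coprime.mul_right h12 h01.symm)
  have hc2 : IsCoprime (q2 : ℤ) (q0 : ℤ) := Nat.isCoprime_iff_coprime.mpr h02.symm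
  obtain ⟨mb, hmb⟩ := exists_inv (q2 * q0) (q1 : ℤ) hc1
  obtain ⟨nb, hnb⟩ := exists_inv q1 ((q2 * q0 : ℕ) : ℤ) hc1.symm
  obtain ⟨mb', hmb'⟩ := exists_inv q0 (q2 : ℤ) hc2
  obtain ⟨nb', hnb'⟩ := exists_inv q2 (q0 : ℤ) hc2.symm
  set l0 : ℤ := l * mb * mb' with hl0
  have hgcd : Int.gcd l0 q0 = Int.gcd l q0 := by
    rw [hl0, gcd_mul_coprime, gcd_mul_coprime]
    · apply cop_of_dvd q0 (q1 : ℤ)
      exact dvd_trans (by push_cast; exact Dvd.intro_left _ rfl) hmb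
    · exact cop_of_dvd q0 (q2 : ℤ) mb' hmb'
  have hK : ∀ y : ℤ, K (q1 * (q2 * q0)) l y =
      K q1 (l * nb) y * (K q2 (l * mb * nb') y * K q0 l0 y) := by
    intro y
    rw [K_mul q1 (q2 * q0) hq1 (Nat.mul_pos hq2 hq0) nb mb hnb hmb,
      K_mul q2 q0 hq2 hq0 nb' mb' hnb' hmb']
  obtain ⟨hH1, hH1T, hH1'⟩ := floor_facts T q1 hq1 hT1
  obtain ⟨hH2, hH2T, hH2'⟩ := floor_facts T q2 hq2 hT2
  set H1 := ⌊T / q1⌋₊ with hH1def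
  set H2 := ⌊T / q2⌋₊ with hH2def
  have hH1r : (0 : ℝ) < H1 := by exact_mod_cast hH1
  have hH2r : (0 : ℝ) < H2 := by exact_mod_cast hH2
  have key := two_step (fun y => K q1 (l * nb) y) (fun y => K q2 (l * mb * nb') y)
    (fun y => K q0 l0 y) q1 q2 H1 H2 T u v hq1 hq2 hH1 hH2 hH1T hH2T huv
    (fun y => K_period q1 hq1 _ y) (fun y => norm_K_le _ _ _)
    (fun y => K_period q2 hq2 _ y) (fun y => norm_K_le _ _ _) (fun y => norm_K_le _ _ _)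
  rw [Finset.sum_congr rfl (fun y _ => hK y)]
  refine key.trans ?_
  -- the three terms
  have t1 : 8 * T ^ 4 / (H1 : ℝ) ^ 2 ≤ 32 * T ^ 2 * (q1 : ℝ) ^ 2 := by
    rw [div_le_iff₀ (by positivity)]
    have h1 : T ≤ 2 * q1 * H1 := by
      rw [div_le_iff₀ (by positivity)] at hH1'
      linarith
    have h2 : T ^ 2 ≤ (2 * q1 * H1) ^ 2 := pow_le_pow_left₀ hT0.le h1 2
    nlinarith [mul_le_mul_of_nonneg_left h2 (by positivity : (0 : ℝ) ≤ 8 * T ^ 2)]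
  have t2 : 64 * T ^ 4 / (H2 : ℝ) ≤ 128 * T ^ 3 * q2 := by
    rw [div_le_iff₀ hH2r]
    have h1 : T ≤ 2 * q2 * H2 := by
      rw [div_le_iff₀ (by positivity)] at hH2'
      linarith
    nlinarith [mul_le_mul_of_nonneg_left h1 (by positivity : (0 : ℝ) ≤ 64 * T ^ 3)]
  set E : ℝ := (T / q0 + 1 + Real.log q0) * C ^ q0.primeFactors.card * (q0 : ℝ) ^ κ *
    Int.gcd l q0 with hE
  have hlog : 0 ≤ Real.log q0 := Real.log_nonneg (by exact_mod_cast hq0)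
  have hE0 : 0 ≤ E := by positivity
  have hU : ∀ r i : ℕ, ‖∑ y ∈ Finset.Ico u (v - (r : ℤ) * q1 - (i : ℤ) * q2),
      K q0 l0 (y + (r : ℤ) * q1 + (i : ℤ) * q2) *
        (starRingEnd ℂ) (K q0 l0 (y + (i : ℤ) * q2)) *
        (starRingEnd ℂ) (K q0 l0 (y + (r : ℤ) * q1)) * K q0 l0 y‖ ≤
      E * ((Nat.gcd r q0 : ℝ) * Nat.gcd i q0) := by
    intro r i
    have hper : ∀ y : ℤ, K4 q0 l0 ((r : ℤ) * q1) ((i : ℤ) * q2) (y + q0) =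
        K4 q0 l0 ((r : ℤ) * q1) ((i : ℤ) * q2) y := by
      intro y
      unfold K4
      congr 1
      · congr 1
        · congr 1
          · exact K_congr q0 hq0 _ _ _ (by ring_nf; simp)
          · congr 1
            exact K_congr q0 hq0 _ _ _ (by ring_nf; simp)
        · congr 1
          exact K_congr q0 hq0 _ _ _ (by ring_nf; simp)
      · exact K_congr q0 hq0 _ _ _ (by simp)
    have hB := fun t : ℤ => G_sqf C κ hW hC hκ q0 h0 l0 ((r : ℤ) * q1) ((i : ℤ) * q2) t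
    have hlen : ((v - (r : ℤ) * q1 - (i : ℤ) * q2 - u : ℤ) : ℝ) ≤ T := by
      refine le_trans ?_ huv
      push_cast
      have a1 : (0 : ℝ) ≤ (r : ℝ) * q1 := by positivity
      have a2 : (0 : ℝ) ≤ (i : ℝ) * q2 := by positivity
      linarith
    have hcomp := completion q0 hq0 (K4 q0 l0 ((r : ℤ) * q1) ((i : ℤ) * q2)) hper _ hB u
      (v - (r : ℤ) * q1 - (i : ℤ) * q2) T hT0.le hlen
    refine hcomp.trans (le_of_eq ?_)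
    rw [gcd_mul_coprime (r : ℤ) (q1 : ℤ) q0 (Nat.isCoprime_iff_coprime.mpr h01.symm),
      gcd_mul_coprime (i : ℤ) (q2 : ℤ) q0 (Nat.isCoprime_iff_coprime.mpr h02.symm), hgcd,
      Int.gcd_natCast_natCast, Int.gcd_natCast_natCast, hE]
    ring
  have hsum : ∑ r ∈ Finset.Ico 1 H1, ∑ i ∈ Finset.Ico 1 H2,
      ‖∑ y ∈ Finset.Ico u (v - (r : ℤ) * q1 - (i : ℤ) * q2),
      K q0 l0 (y + (r : ℤ) * q1 + (i : ℤ) * q2) *
        (starRingEnd ℂ) (K q0 l0 (y + (i : ℤ) * q2)) *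
        (starRingEnd ℂ) (K q0 l0 (y + (r : ℤ) * q1)) * K q0 l0 y‖ ≤
      E * ((H1 * q0.divisors.card) * (H2 * q0.divisors.card)) := by
    refine (Finset.sum_le_sum fun r _ => Finset.sum_le_sum fun i _ => hU r i).trans ?_
    rw [show ∑ r ∈ Finset.Ico 1 H1, ∑ i ∈ Finset.Ico 1 H2, E * ((Nat.gcd r q0 : ℝ) * Nat.gcd i q0) =
      E * ((∑ r ∈ Finset.Ico 1 H1, (Nat.gcd r q0 : ℝ)) * ∑ i ∈ Finset.Ico 1 H2, (Nat.gcd i q0 : ℝ)) by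
        rw [Finset.sum_mul_sum, Finset.mul_sum]
        exact Finset.sum_congr rfl fun r _ => by rw [Finset.mul_sum]]
    apply mul_le_mul_of_nonneg_left _ hE0
    apply mul_le_mul (sum_gcd q0 hq0 H1) (sum_gcd q0 hq0 H2)
    · exact Finset.sum_nonneg fun i _ => Nat.cast_nonneg _
    · positivity
  have t3 : 128 * T ^ 3 / ((H1 : ℝ) * H2) * ∑ r ∈ Finset.Ico 1 H1, ∑ i ∈ Finset.Ico 1 H2,
      ‖∑ y ∈ Finset.Ico u (v - (r : ℤ) * q1 - (i : ℤ) * q2),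
      K q0 l0 (y + (r : ℤ) * q1 + (i : ℤ) * q2) *
        (starRingEnd ℂ) (K q0 l0 (y + (i : ℤ) * q2)) *
        (starRingEnd ℂ) (K q0 l0 (y + (r : ℤ) * q1)) * K q0 l0 y‖ ≤
      128 * T ^ 3 * (T / q0 + 1 + Real.log q0) * C ^ q0.primeFactors.card * (q0 : ℝ) ^ κ *
          Int.gcd l q0 * (q0.divisors.card : ℝ) ^ 2 := by
    refine (mul_le_mul_of_nonneg_left hsum (by positivity)).trans (le_of_eq ?_)
    rw [hE]
    field_simp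
  exact add_le_add (add_le_add t1 t2) t3

end Pool.Agent.H19.QV
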