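import Pool.Agent.H19.QV.VDC

/-!
# [H19 QV TWO] two steps of the q-van der Corput method

Let `g1` be periodic mod `q1`, `g2` periodic mod `q2`, `|g1|, |g2|, |k| ≤ 1`, `H1 q1 ≤ T`, `H2 q2 ≤ T`,
`v - u ≤ T`.  Then with `k4(r, i, y) = k(y + r q1 + i q2) conj k(y + i q2) conj k(y + r q1) k(y)`
`|∑_{u ≤ y < v} g1 (g2 k)|⁴ ≤ 8 T⁴/H1² + 64 T⁴/H2 + 128 T³/(H1 H2) ∑_{1 ≤ r < H1} ∑_{1 ≤ i < H2}
  |∑_{u ≤ y < v - r q1 - i q2} k4(r, i, y)|`.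

Proof.  `vdc` for `g1` and `g2 k` gives `|S|² ≤ (2T/H1)(T + 2 ∑_r |T(r)|)`,
`T(r) = ∑_{u ≤ y < v - r q1} (g2 k)(y + r q1) conj (g2 k)(y) = ∑ g(y) κ(y)` with
`g(y) = g2(y + r q1) conj g2(y)` (periodic mod `q2`, bounded by `1`), `κ(y) = k(y + r q1) conj k(y)`.  `vdc` again,
on `[u, v - r q1)` (`v - r q1 - u ≤ T`): `|T(r)|² ≤ (2T/H2)(T + 2 ∑_i |U(r, i)|)`,
`U(r, i) = ∑_{u ≤ y < v - r q1 - i q2} κ(y + i q2) conj κ(y)`, and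
`κ(y + i q2) conj κ(y) = k(y + i q2 + r q1) conj k(y + i q2) conj k(y + r q1) k(y)`.
`|S|⁴ ≤ (4T²/H1²)(T + 2 ∑_r |T(r)|)² ≤ (8T²/H1²)(T² + 4 (∑_r |T(r)|)²) ≤ (8T²/H1²)(T² + 4 H1 ∑_r |T(r)|²)`
(Cauchy, at most `H1` terms) `≤ 8T⁴/H1² + (32T²/H1) ∑_r (2T/H2)(T + 2 ∑_i |U|)
≤ 8T⁴/H1² + 64T⁴/H2 + (128T³/(H1 H2)) ∑_r ∑_i |U(r, i)|`.
-/

namespace Pool.Agent.H19.QV

open Finset

theorem two_step (g1 g2 k : ℤ → ℂ) (q1 q2 H1 H2 : ℕ) (T : ℝ) (u v : ℤ) (hq1 : 1 ≤ q1) (hq2 : 1 ≤ q2)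
    (hH1 : 1 ≤ H1) (hH2 : 1 ≤ H2) (hT1 : (H1 : ℝ) * q1 ≤ T) (hT2 : (H2 : ℝ) * q2 ≤ T)
    (huv : ((v - u : ℤ) : ℝ) ≤ T)
    (hg1 : ∀ y, g1 (y + q1) = g1 y) (hg1' : ∀ y, ‖g1 y‖ ≤ 1)
    (hg2 : ∀ y, g2 (y + q2) = g2 y) (hg2' : ∀ y, ‖g2 y‖ ≤ 1) (hk : ∀ y, ‖k y‖ ≤ 1) :
    ‖∑ y ∈ Finset.Ico u v, g1 y * (g2 y * k y)‖ ^ 4 ≤
      8 * T ^ 4 / (H1 : ℝ) ^ 2 + 64 * T ^ 4 / H2 + 128 * T ^ 3 / (H1 * H2) *
        ∑ r ∈ Finset.Ico 1 H1, ∑ i ∈ Finset.Ico 1 H2,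
          ‖∑ y ∈ Finset.Ico u (v - (r : ℤ) * q1 - (i : ℤ) * q2),
            k (y + (r : ℤ) * q1 + (i : ℤ) * q2) * (starRingEnd ℂ) (k (y + (i : ℤ) * q2)) *
              (starRingEnd ℂ) (k (y + (r : ℤ) * q1)) * k y‖ := by
  have hH1r : (0 : ℝ) < H1 := by exact_mod_cast hH1
  have hH2r : (0 : ℝ) < H2 := by exact_mod_cast hH2
  have hq1r : (0 : ℝ) < q1 := by exact_mod_cast hq1
  have hT : 0 < T := lt_of_lt_of_le (by positivity) hT1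
  have b2 : ∀ y, ‖g2 y * k y‖ ≤ 1 := fun y => by
    rw [norm_mul]
    exact mul_le_one₀ (hg2' y) (norm_nonneg _) (hk y)
  have s1 := vdc g1 (fun y => g2 y * k y) q1 H1 T u v hq1 hH1 hT1 huv hg1 hg1' b2
  set Tr : ℕ → ℝ := fun r => ‖∑ y ∈ Finset.Ico u (v - (r : ℤ) * q1),
    (g2 (y + (r : ℤ) * q1) * k (y + (r : ℤ) * q1)) * (starRingEnd ℂ) (g2 y * k y)‖ with hTr
  set U : ℕ → ℕ → ℝ := fun r i => ‖∑ y ∈ Finset.Ico u (v - (r : ℤ) * q1 - (i : ℤ) * q2),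
            k (y + (r : ℤ) * q1 + (i : ℤ) * q2) * (starRingEnd ℂ) (k (y + (i : ℤ) * q2)) *
              (starRingEnd ℂ) (k (y + (r : ℤ) * q1)) * k y‖ with hU
  have hTr0 : ∀ r, 0 ≤ Tr r := fun r => norm_nonneg _
  have hU0 : ∀ r i, 0 ≤ U r i := fun r i => norm_nonneg _
  have s1' : ‖∑ y ∈ Finset.Ico u v, g1 y * (g2 y * k y)‖ ^ 2 ≤
      2 * T / H1 * (T + 2 * ∑ r ∈ Finset.Ico 1 H1, Tr r) := s1
  have s2 : ∀ r : ℕ, Tr r ^ 2 ≤ 2 * T / H2 * (T + 2 * ∑ i ∈ Finset.Ico 1 H2, U r i) := by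
    intro r
    have hlen : ((v - (r : ℤ) * q1 - u : ℤ) : ℝ) ≤ T := by
      refine le_trans ?_ huv
      push_cast
      have a1 : (0 : ℝ) ≤ (r : ℝ) * q1 := by positivity
      linarith
    have h := vdc (fun y => g2 (y + (r : ℤ) * q1) * (starRingEnd ℂ) (g2 y))
      (fun y => k (y + (r : ℤ) * q1) * (starRingEnd ℂ) (k y)) q2 H2 T u (v - (r : ℤ) * q1) hq2 hH2 hT2
      hlen ?_ ?_ ?_
    · have e1 : Tr r = ‖∑ y ∈ Finset.Ico u (v - (r : ℤ) * q1),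
          g2 (y + (r : ℤ) * q1) * (starRingEnd ℂ) (g2 y) *
            (k (y + (r : ℤ) * q1) * (starRingEnd ℂ) (k y))‖ := by
        simp only [hTr]
        congr 1
        refine Finset.sum_congr rfl fun y _ => ?_
        rw [map_mul]
        ring
      rw [e1]
      refine h.trans (le_of_eq ?_)
      congr 3
      refine Finset.sum_congr rfl fun i _ => ?_
      simp only [hU]
      congr 1
      refine Finset.sum_congr rfl fun y _ => ?_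
      rw [map_mul, Complex.conj_conj, show y + (i : ℤ) * q2 + (r : ℤ) * q1 =
        y + (r : ℤ) * q1 + (i : ℤ) * q2 by ring]
      ring
    · intro y
      show g2 (y + q2 + (r : ℤ) * q1) * (starRingEnd ℂ) (g2 (y + q2)) = _
      rw [hg2 y, show y + q2 + (r : ℤ) * q1 = (y + (r : ℤ) * q1) + q2 by ring, hg2]
    · intro y
      show ‖g2 (y + (r : ℤ) * q1) * (starRingEnd ℂ) (g2 y)‖ ≤ 1
      rw [norm_mul, RCLike.norm_conj]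
      exact mul_le_one₀ (hg2' _) (norm_nonneg _) (hg2' _)
    · intro y
      show ‖k (y + (r : ℤ) * q1) * (starRingEnd ℂ) (k y)‖ ≤ 1
      rw [norm_mul, RCLike.norm_conj]
      exact mul_le_one₀ (hk _) (norm_nonneg _) (hk _)
  -- combine
  set A : ℝ := ∑ r ∈ Finset.Ico 1 H1, Tr r with hA
  set B : ℝ := ∑ r ∈ Finset.Ico 1 H1, ∑ i ∈ Finset.Ico 1 H2, U r i with hB
  have hA0 : 0 ≤ A := Finset.sum_nonneg fun r _ => hTr0 r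
  have hB0 : 0 ≤ B := Finset.sum_nonneg fun r _ => Finset.sum_nonneg fun i _ => hU0 r i
  have hcs : A ^ 2 ≤ H1 * ∑ r ∈ Finset.Ico 1 H1, Tr r ^ 2 := by
    have h := sq_sum_le_card_mul_sum_sq (s := Finset.Ico 1 H1) (f := Tr)
    refine h.trans ?_
    apply mul_le_mul_of_nonneg_right _ (Finset.sum_nonneg fun r _ => sq_nonneg _)
    rw [Nat.card_Ico]
    exact_mod_cast Nat.sub_le _ _
  have hsq : ∑ r ∈ Finset.Ico 1 H1, Tr r ^ 2 ≤ 2 * T / H2 * (H1 * T + 2 * B) := by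
    refine (Finset.sum_le_sum fun r _ => s2 r).trans ?_
    rw [← Finset.mul_sum, Finset.sum_add_distrib, ← Finset.mul_sum, Finset.sum_const, Nat.card_Ico,
      nsmul_eq_mul]
    apply mul_le_mul_of_nonneg_left _ (by positivity)
    have : ((H1 - 1 : ℕ) : ℝ) ≤ H1 := by exact_mod_cast Nat.sub_le _ _
    have h3 := mul_le_mul_of_nonneg_right this hT.le
    linarith
  have hA2 : A ^ 2 ≤ H1 * (2 * T / H2 * (H1 * T + 2 * B)) :=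
    hcs.trans (mul_le_mul_of_nonneg_left hsq hH1r.le)
  have h4 : ‖∑ y ∈ Finset.Ico u v, g1 y * (g2 y * k y)‖ ^ 4 ≤ (2 * T / H1 * (T + 2 * A)) ^ 2 := by
    rw [show (4 : ℕ) = 2 * 2 from rfl, pow_mul]
    exact pow_le_pow_left₀ (sq_nonneg _) s1' 2
  refine h4.trans ?_
  have h5 : (T + 2 * A) ^ 2 ≤ 2 * T ^ 2 + 8 * A ^ 2 := by nlinarith [sq_nonneg (T - 2 * A)]
  have h6 : (2 * T / H1 * (T + 2 * A)) ^ 2 ≤
      (2 * T / H1) ^ 2 * (2 * T ^ 2 + 8 * (H1 * (2 * T / H2 * (H1 * T + 2 * B)))) := by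
    rw [mul_pow]
    apply mul_le_mul_of_nonneg_left _ (sq_nonneg _)
    linarith
  refine h6.trans (le_of_eq ?_)
  field_simp
  ring

end Pool.Agent.H19.QV
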