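import Pool.Agent.H19.QV.Defs

/-!
# [H19 QV VDC] one step of the q-analogue of van der Corput's method

Let `g, k : ℤ → ℂ` be bounded by `1`, `g` periodic modulo `q ≥ 1`, `1 ≤ H`, `H q ≤ T`, `v - u ≤ T`.  Then
`|∑_{u ≤ y < v} g(y) k(y)|² ≤ (2 T / H) (T + 2 ∑_{1 ≤ r < H} |∑_{u ≤ y < v - r q} k(y + r q) conj k(y)|)`.

Proof.  If `v ≤ u` the left side is `0`.  Let `u < v`, `M = v - u`, `k_I = k` on `I = [u, v)` and `0`
elsewhere.  For every `j` with `0 ≤ j < H`, `S = ∑_y g(y) k_I(y) = ∑_{y} g(y + j q) k_I(y + j q)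
= ∑_{y ∈ I'} g(y) k_I(y + j q)` where `I' = [u - H q, v)` contains `I - j q` (translation of a sum over
`Ico`, `g` periodic); so `H S = ∑_{y ∈ I'} g(y) ∑_{j < H} k_I(y + j q)`.  Cauchy-Schwarz with `|g| ≤ 1`
and `#I' = M + H q ≤ 2 T`:
`H² |S|² ≤ 2 T ∑_{y ∈ I'} |∑_j k_I(y + j q)|² = 2 T ∑_{j, j'} ∑_{y ∈ I'} k_I(y + j q) conj k_I(y + j' q)`.
The inner sum for `j ≥ j'` is (put `z = y + j' q`) `T(j - j')`,
`T(r) = ∑_{z ∈ [u, v - r q)} k(z + r q) conj k(z)` (the terms vanish unless `z, z + r q ∈ I`, and then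
`y ∈ I'`), for `j < j'` it is `conj T(j' - j)`.  So the double sum has absolute value at most
`H |T(0)| + 2 ∑_{r = 1}^{H - 1} (H - r) |T(r)| ≤ H T + 2 H ∑_{r=1}^{H-1} |T(r)|` (`|T(0)| ≤ M ≤ T`).  Divide by `H²`.
-/

namespace Pool.Agent.H19.QV

open Finset

/-- correlation sum -/
private noncomputable def cor (k : ℤ → ℂ) (u v d : ℤ) : ℂ :=
  ∑ y ∈ Finset.Ico u (v - d), k (y + d) * (starRingEnd ℂ) (k y)

open Classical in
/-- restriction of `k` to `[u, v)` -/
private noncomputable def res (k : ℤ → ℂ) (u v y : ℤ) : ℂ := if y ∈ Finset.Ico u v then k y else 0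

private theorem res_in (k : ℤ → ℂ) (u v y : ℤ) (h : y ∈ Finset.Ico u v) : res k u v y = k y := by
  unfold res
  rw [if_pos h]

private theorem res_out (k : ℤ → ℂ) (u v y : ℤ) (h : y ∉ Finset.Ico u v) : res k u v y = 0 := by
  unfold res
  rw [if_neg h]

private theorem inner_sum (k : ℤ → ℂ) (u v w a b : ℤ) (hab : b ≤ a) (hb : 0 ≤ b) (hw : w + b ≤ u) :
    ∑ y ∈ Finset.Ico w v, res k u v (y + a) * (starRingEnd ℂ) (res k u v (y + b)) =
      cor k u v (a - b) := by
  unfold cor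
  have h1 := Finset.sum_Ico_add' (fun y => res k u v (y + (a - b)) * (starRingEnd ℂ) (res k u v y)) w v b
  rw [show ∑ y ∈ Finset.Ico w v, res k u v (y + a) * (starRingEnd ℂ) (res k u v (y + b)) =
    ∑ y ∈ Finset.Ico w v, res k u v (y + b + (a - b)) * (starRingEnd ℂ) (res k u v (y + b)) from
    Finset.sum_congr rfl fun y _ => by rw [show y + b + (a - b) = y + a by ring], h1]
  have hsub : Finset.Ico u (v - (a - b)) ⊆ Finset.Ico (w + b) (v + b) := by
    intro y hy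
    rw [Finset.mem_Ico] at hy ⊢
    omega
  rw [← Finset.sum_subset hsub]
  · refine Finset.sum_congr rfl fun y hy => ?_
    rw [Finset.mem_Ico] at hy
    rw [res_in, res_in]
    · rw [Finset.mem_Ico]; omega
    · rw [Finset.mem_Ico]; omega
  · intro y _ hy
    by_cases h2 : y ∈ Finset.Ico u v
    · rw [res_out k u v (y + (a - b)), zero_mul]
      rw [Finset.mem_Ico] at h2 hy ⊢
      omega
    · rw [res_out k u v y h2, map_zero, mul_zero]

private theorem shift_sum (g k : ℤ → ℂ) (q : ℕ) (hg : ∀ y, g (y + q) = g y) (u v w : ℤ) (j : ℕ)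
    (hw : w + (j : ℤ) * q ≤ u) :
    ∑ y ∈ Finset.Ico w v, g y * res k u v (y + (j : ℤ) * q) = ∑ y ∈ Finset.Ico u v, g y * k y := by
  have hgj : ∀ (j : ℕ) (y : ℤ), g (y + (j : ℤ) * q) = g y := by
    intro j
    induction j with
    | zero => intro y; simp
    | succ j ih =>
      intro y
      rw [show y + ((j + 1 : ℕ) : ℤ) * q = (y + (j : ℤ) * q) + q by push_cast; ring, hg, ih]
  have hq0 : (0 : ℤ) ≤ (j : ℤ) * q := by positivity
  have h1 := Finset.sum_Ico_add' (fun y => g y * res k u v y) w v ((j : ℤ) * q)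
  rw [show ∑ y ∈ Finset.Ico w v, g y * res k u v (y + (j : ℤ) * q) =
    ∑ y ∈ Finset.Ico w v, g (y + (j : ℤ) * q) * res k u v (y + (j : ℤ) * q) from
    Finset.sum_congr rfl fun y _ => by rw [hgj], h1]
  have hsub : Finset.Ico u v ⊆ Finset.Ico (w + (j : ℤ) * q) (v + (j : ℤ) * q) := by
    intro y hy
    rw [Finset.mem_Ico] at hy ⊢
    omega
  rw [← Finset.sum_subset hsub]
  · exact Finset.sum_congr rfl fun y hy => by rw [res_in k u v y hy]
  · intro y _ hy
    rw [res_out k u v y hy, mul_zero]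

private theorem sum_dist_le (c : ℕ → ℝ) (hc : ∀ r, 0 ≤ c r) (H j : ℕ) (hj : j < H) :
    ∑ i ∈ Finset.range H, c ((j - i) + (i - j)) ≤ c 0 + 2 * ∑ r ∈ Finset.Ico 1 H, c r := by
  have hsplit : Finset.range H = Finset.range j ∪ ({j} ∪ Finset.Ico (j + 1) H) := by
    ext i
    simp only [Finset.mem_range, Finset.mem_union, Finset.mem_singleton, Finset.mem_Ico]
    omega
  have hd2 : Disjoint ({j} : Finset ℕ) (Finset.Ico (j + 1) H) := by
    rw [Finset.disjoint_left]
    intro i hi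
    simp only [Finset.mem_singleton, Finset.mem_Ico] at hi ⊢
    omega
  have hd1 : Disjoint (Finset.range j) ({j} ∪ Finset.Ico (j + 1) H) := by
    rw [Finset.disjoint_left]
    intro i hi
    simp only [Finset.mem_range, Finset.mem_union, Finset.mem_singleton, Finset.mem_Ico] at hi ⊢
    omega
  rw [hsplit, Finset.sum_union hd1, Finset.sum_union hd2, Finset.sum_singleton]
  have e0 : c ((j - j) + (j - j)) = c 0 := by simp
  have e1 : ∑ i ∈ Finset.range j, c ((j - i) + (i - j)) ≤ ∑ r ∈ Finset.Ico 1 H, c r := by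
    have : ∑ i ∈ Finset.range j, c ((j - i) + (i - j)) = ∑ r ∈ (Finset.range j).image (fun i => j - i), c r := by
      rw [Finset.sum_image]
      · refine Finset.sum_congr rfl fun i hi => ?_
        rw [Finset.mem_range] at hi
        congr 1
        omega
      · intro x hx y hy hxy
        simp only [Finset.coe_range, Set.mem_Iio] at hx hy
        simp only at hxy
        omega
    rw [this]
    apply Finset.sum_le_sum_of_subset_of_nonneg
    · intro r hr
      rw [Finset.mem_image] at hr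
      obtain ⟨i, hi, rfl⟩ := hr
      rw [Finset.mem_range] at hi
      rw [Finset.mem_Ico]
      omega
    · intro r _ _
      exact hc r
  have e2 : ∑ i ∈ Finset.Ico (j + 1) H, c ((j - i) + (i - j)) ≤ ∑ r ∈ Finset.Ico 1 H, c r := by
    have : ∑ i ∈ Finset.Ico (j + 1) H, c ((j - i) + (i - j)) =
        ∑ r ∈ (Finset.Ico (j + 1) H).image (fun i => i - j), c r := by
      rw [Finset.sum_image]
      · refine Finset.sum_congr rfl fun i hi => ?_
        rw [Finset.mem_Ico] at hi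
        congr 1
        omega
      · intro x hx y hy hxy
        simp only [Finset.coe_Ico, Set.mem_Ico] at hx hy
        simp only at hxy
        omega
    rw [this]
    apply Finset.sum_le_sum_of_subset_of_nonneg
    · intro r hr
      rw [Finset.mem_image] at hr
      obtain ⟨i, hi, rfl⟩ := hr
      rw [Finset.mem_Ico] at hi ⊢
      omega
    · intro r _ _
      exact hc r
  rw [e0]
  linarith

theorem vdc (g k : ℤ → ℂ) (q H : ℕ) (T : ℝ) (u v : ℤ) (hq : 1 ≤ q) (hH : 1 ≤ H)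
    (hHT : (H : ℝ) * q ≤ T) (huv : ((v - u : ℤ) : ℝ) ≤ T)
    (hg : ∀ y, g (y + q) = g y) (hg1 : ∀ y, ‖g y‖ ≤ 1) (hk1 : ∀ y, ‖k y‖ ≤ 1) :
    ‖∑ y ∈ Finset.Ico u v, g y * k y‖ ^ 2 ≤
      2 * T / H * (T + 2 * ∑ r ∈ Finset.Ico 1 H,
        ‖∑ y ∈ Finset.Ico u (v - (r : ℤ) * q), k (y + (r : ℤ) * q) * (starRingEnd ℂ) (k y)‖) := by
  have hHr : (0 : ℝ) < H := by exact_mod_cast hH
  have hqr : (0 : ℝ) < q := by exact_mod_cast hq
  have hT : 0 < T := lt_of_lt_of_le (by positivity) hHT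
  set c : ℕ → ℝ := fun r => ‖cor k u v ((r : ℤ) * q)‖ with hc
  have hc0 : ∀ r, 0 ≤ c r := fun r => norm_nonneg _
  have hgoal : ∑ r ∈ Finset.Ico 1 H,
      ‖∑ y ∈ Finset.Ico u (v - (r : ℤ) * q), k (y + (r : ℤ) * q) * (starRingEnd ℂ) (k y)‖ =
      ∑ r ∈ Finset.Ico 1 H, c r := rfl
  rw [hgoal]
  have hsum0 : 0 ≤ ∑ r ∈ Finset.Ico 1 H, c r := Finset.sum_nonneg fun r _ => hc0 r
  rcases le_or_gt v u with hle | hlt
  · rw [Finset.Ico_eq_empty (by omega), Finset.sum_empty, norm_zero, zero_pow two_ne_zero]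
    positivity
  set w : ℤ := u - (H : ℤ) * q with hw
  have hwj : ∀ j ∈ Finset.range H, w + (j : ℤ) * q ≤ u := by
    intro j hj
    rw [Finset.mem_range] at hj
    have : (j : ℤ) * q ≤ (H : ℤ) * q :=
      mul_le_mul_of_nonneg_right (by exact_mod_cast hj.le) (Int.natCast_nonneg q)
    omega
  have hS : (H : ℂ) * ∑ y ∈ Finset.Ico u v, g y * k y =
      ∑ y ∈ Finset.Ico w v, g y * ∑ j ∈ Finset.range H, res k u v (y + (j : ℤ) * q) := by
    calc (H : ℂ) * ∑ y ∈ Finset.Ico u v, g y * k y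
        = ∑ j ∈ Finset.range H, ∑ y ∈ Finset.Ico u v, g y * k y := by
          rw [Finset.sum_const, Finset.card_range, nsmul_eq_mul]
      _ = ∑ j ∈ Finset.range H, ∑ y ∈ Finset.Ico w v, g y * res k u v (y + (j : ℤ) * q) :=
          Finset.sum_congr rfl fun j hj => (shift_sum g k q hg u v w j (hwj j hj)).symm
      _ = _ := by
          rw [Finset.sum_comm]
          exact Finset.sum_congr rfl fun y _ => by rw [Finset.mul_sum]
  set F : ℤ → ℂ := fun y => ∑ j ∈ Finset.range H, res k u v (y + (j : ℤ) * q) with hF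
  have h1 : (H : ℝ) * ‖∑ y ∈ Finset.Ico u v, g y * k y‖ ≤ ∑ y ∈ Finset.Ico w v, ‖F y‖ := by
    calc (H : ℝ) * ‖∑ y ∈ Finset.Ico u v, g y * k y‖
        = ‖(H : ℂ) * ∑ y ∈ Finset.Ico u v, g y * k y‖ := by
          rw [norm_mul, Complex.norm_natCast]
      _ = ‖∑ y ∈ Finset.Ico w v, g y * F y‖ := by rw [hS]
      _ ≤ ∑ y ∈ Finset.Ico w v, ‖g y * F y‖ := norm_sum_le _ _
      _ ≤ ∑ y ∈ Finset.Ico w v, ‖F y‖ := by
          refine Finset.sum_le_sum fun y _ => ?_
          rw [norm_mul]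
          exact mul_le_of_le_one_left (norm_nonneg _) (hg1 y)
  have hcard : ((Finset.Ico w v).card : ℝ) ≤ 2 * T := by
    have h2 : (((Finset.Ico w v).card : ℕ) : ℤ) = v - w := by
      rw [Int.card_Ico, Int.toNat_of_nonneg]
      have : (0 : ℤ) ≤ (H : ℤ) * q := by positivity
      omega
    have h3 : ((Finset.Ico w v).card : ℝ) = ((v - w : ℤ) : ℝ) := by exact_mod_cast h2
    rw [h3, hw]
    push_cast at huv ⊢
    linarith
  have h2 : ((H : ℝ) * ‖∑ y ∈ Finset.Ico u v, g y * k y‖) ^ 2 ≤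
      2 * T * ∑ y ∈ Finset.Ico w v, ‖F y‖ ^ 2 := by
    calc ((H : ℝ) * ‖∑ y ∈ Finset.Ico u v, g y * k y‖) ^ 2
        ≤ (∑ y ∈ Finset.Ico w v, ‖F y‖) ^ 2 := pow_le_pow_left₀ (by positivity) h1 2
      _ ≤ ((Finset.Ico w v).card : ℝ) * ∑ y ∈ Finset.Ico w v, ‖F y‖ ^ 2 := sq_sum_le_card_mul_sum_sq
      _ ≤ _ := mul_le_mul_of_nonneg_right hcard (Finset.sum_nonneg fun y _ => sq_nonneg _)
  have hexp : ((∑ y ∈ Finset.Ico w v, ‖F y‖ ^ 2 : ℝ) : ℂ) =
      ∑ j ∈ Finset.range H, ∑ i ∈ Finset.range H, ∑ y ∈ Finset.Ico w v,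
        res k u v (y + (j : ℤ) * q) * (starRingEnd ℂ) (res k u v (y + (i : ℤ) * q)) := by
    push_cast
    calc ∑ y ∈ Finset.Ico w v, ((‖F y‖ : ℝ) : ℂ) ^ 2
        = ∑ y ∈ Finset.Ico w v, ∑ j ∈ Finset.range H, ∑ i ∈ Finset.range H,
          res k u v (y + (j : ℤ) * q) * (starRingEnd ℂ) (res k u v (y + (i : ℤ) * q)) := by
          refine Finset.sum_congr rfl fun y _ => ?_
          rw [← Complex.mul_conj', hF]
          simp only
          rw [map_sum, Finset.sum_mul_sum]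
      _ = _ := by
          rw [Finset.sum_comm]
          refine Finset.sum_congr rfl fun j _ => ?_
          rw [Finset.sum_comm]
  have hR : ∀ j ∈ Finset.range H, ∀ i ∈ Finset.range H, ‖∑ y ∈ Finset.Ico w v,
        res k u v (y + (j : ℤ) * q) * (starRingEnd ℂ) (res k u v (y + (i : ℤ) * q))‖ =
        c ((j - i) + (i - j)) := by
    intro j hj i hi
    rcases le_total i j with hij | hij
    · have h5 : (i : ℤ) * q ≤ (j : ℤ) * q :=
        mul_le_mul_of_nonneg_right (by exact_mod_cast hij) (Int.natCast_nonneg q)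
      rw [inner_sum k u v w ((j : ℤ) * q) ((i : ℤ) * q) h5 (by positivity) (hwj i hi)]
      simp only [hc]
      congr 2
      rw [show (j - i) + (i - j) = j - i by omega, Nat.cast_sub hij]
      ring
    · have h5 : (j : ℤ) * q ≤ (i : ℤ) * q :=
        mul_le_mul_of_nonneg_right (by exact_mod_cast hij) (Int.natCast_nonneg q)
      have h6 := inner_sum k u v w ((i : ℤ) * q) ((j : ℤ) * q) h5 (by positivity) (hwj j hj)
      have h7 : ∑ y ∈ Finset.Ico w v,
          res k u v (y + (j : ℤ) * q) * (starRingEnd ℂ) (res k u v (y + (i : ℤ) * q)) =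
          (starRingEnd ℂ) (cor k u v ((i : ℤ) * q - (j : ℤ) * q)) := by
        rw [← h6, map_sum]
        refine Finset.sum_congr rfl fun y _ => ?_
        rw [map_mul, Complex.conj_conj]
        ring
      rw [h7, RCLike.norm_conj]
      simp only [hc]
      congr 2
      rw [show (j - i) + (i - j) = i - j by omega, Nat.cast_sub hij]
      ring
  have hc00 : c 0 ≤ T := by
    simp only [hc, cor]
    refine (norm_sum_le _ _).trans ?_
    have h8 : ∀ y ∈ Finset.Ico u (v - ((0 : ℕ) : ℤ) * q),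
        ‖k (y + ((0 : ℕ) : ℤ) * q) * (starRingEnd ℂ) (k y)‖ ≤ 1 := by
      intro y _
      rw [norm_mul, RCLike.norm_conj]
      exact mul_le_one₀ (hk1 _) (norm_nonneg _) (hk1 _)
    refine (Finset.sum_le_sum h8).trans ?_
    rw [Finset.sum_const, nsmul_eq_mul, mul_one]
    have h9 : (((Finset.Ico u (v - ((0 : ℕ) : ℤ) * q)).card : ℕ) : ℤ) = v - u := by
      rw [Int.card_Ico, Int.toNat_of_nonneg]
      · simp
      · simp; omega
    have h10 : (((Finset.Ico u (v - ((0 : ℕ) : ℤ) * q)).card : ℕ) : ℝ) = ((v - u : ℤ) : ℝ) := by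
      exact_mod_cast h9
    rw [h10]
    exact huv
  have h3 : ∑ y ∈ Finset.Ico w v, ‖F y‖ ^ 2 ≤ H * (T + 2 * ∑ r ∈ Finset.Ico 1 H, c r) := by
    have h11 : ∑ y ∈ Finset.Ico w v, ‖F y‖ ^ 2 = ‖((∑ y ∈ Finset.Ico w v, ‖F y‖ ^ 2 : ℝ) : ℂ)‖ := by
      rw [Complex.norm_real, Real.norm_of_nonneg (Finset.sum_nonneg fun y _ => sq_nonneg _)]
    rw [h11, hexp]
    calc ‖∑ j ∈ Finset.range H, ∑ i ∈ Finset.range H, ∑ y ∈ Finset.Ico w v,
          res k u v (y + (j : ℤ) * q) * (starRingEnd ℂ) (res k u v (y + (i : ℤ) * q))‖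
        ≤ ∑ j ∈ Finset.range H, ∑ i ∈ Finset.range H, ‖∑ y ∈ Finset.Ico w v,
          res k u v (y + (j : ℤ) * q) * (starRingEnd ℂ) (res k u v (y + (i : ℤ) * q))‖ :=
          (norm_sum_le _ _).trans (Finset.sum_le_sum fun j _ => norm_sum_le _ _)
      _ = ∑ j ∈ Finset.range H, ∑ i ∈ Finset.range H, c ((j - i) + (i - j)) :=
          Finset.sum_congr rfl fun j hj => Finset.sum_congr rfl fun i hi => hR j hj i hi
      _ ≤ ∑ j ∈ Finset.range H, (T + 2 * ∑ r ∈ Finset.Ico 1 H, c r) := by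
          refine Finset.sum_le_sum fun j hj => ?_
          rw [Finset.mem_range] at hj
          have := sum_dist_le c hc0 H j hj
          linarith
      _ = _ := by rw [Finset.sum_const, Finset.card_range, nsmul_eq_mul]
  have h4 : ((H : ℝ) * ‖∑ y ∈ Finset.Ico u v, g y * k y‖) ^ 2 ≤
      2 * T * (H * (T + 2 * ∑ r ∈ Finset.Ico 1 H, c r)) :=
    h2.trans (mul_le_mul_of_nonneg_left h3 (by positivity))
  rw [mul_pow] at h4
  rw [div_mul_eq_mul_div, le_div_iff₀ hHr]
  have h12 : (H : ℝ) * (‖∑ y ∈ Finset.Ico u v, g y * k y‖ ^ 2 * H) ≤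
      H * (2 * T * (T + 2 * ∑ r ∈ Finset.Ico 1 H, c r)) := by
    linarith [h4]
  exact le_of_mul_le_mul_left h12 hHr

end Pool.Agent.H19.QV
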